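import Pool.Agent.Run7.h427.CZ.Main
import Pool.Agent.Run7.h427.CY.Solv

/-!
# Descent of semisimple Galois representations through towers of cyclic extensions of good degrees
-/

set_option autoImplicit false

namespace Run7.h427.CZ

open Matrix Topology Filter NumberField IsDedekindDomain Polynomial
open Run7.h427.CY
open Run7.h427.DS (Semis)
open Pool.Agent.W401.Cheb Pool.Agent.W528.Ord
open Run7.h427.PL (exists_frob_dens vanish isFrob_conj)

variable {F : Type} [Field F] [NumberField F] {K : Type} [Field K] {n : ℕ}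

theorem roots_card_le (A : Matrix (Fin n) (Fin n) K) : A.charpoly.roots.card ≤ n := by
  refine (Polynomial.card_roots' _).trans ?_
  rw [Matrix.charpoly_natDegree_eq_dim, Fintype.card_fin]

/-- the powers of the roots of a stable polynomial of degree `n` are small -/
theorem small_roots {τ : K ≃+* K} {P : K[X]} (hn : P.natDegree ≤ n)
    (h : P.map (τ : K →+* K) = P) (m : ℕ) : ∀ x ∈ P.roots.map fun a => a ^ m, Small τ n x := by
  intro x hx
  refine small_of_mem (A := P.roots.map fun a => a ^ m) ?_ ?_ hx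
  · rw [Multiset.card_map]
    exact (Polynomial.card_roots' _).trans hn
  · intro y hy
    obtain ⟨a, ha, rfl⟩ := Multiset.mem_map.mp hy
    exact Multiset.mem_map.mpr ⟨τ a, stable_roots h a ha, (map_pow τ a m).symm⟩

theorem small_roots_one {τ : K ≃+* K} {P : K[X]} (hn : P.natDegree ≤ n)
    (h : P.map (τ : K →+* K) = P) : ∀ x ∈ P.roots, Small τ n x := by
  intro x hx
  refine small_roots hn h 1 x ?_
  simp only [pow_one, Multiset.map_id']
  exact hx

theorem pow_mem_of_relIndex {H H' : Subgroup (GK F)} (hnorm : (H.subgroupOf H').Normal) {p : ℕ}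
    (hidx : H.relIndex H' = p) {x : GK F} (hx : x ∈ H') : x ^ p ∈ H := by
  let N : Subgroup H' := H.subgroupOf H'
  have hNn : N.Normal := hnorm
  have h1 : (QuotientGroup.mk (⟨x, hx⟩ : H') : H' ⧸ N) ^ p = 1 := by
    have h2 : Nat.card (H' ⧸ N) = p := hidx
    rw [← h2]
    exact pow_card_eq_one'
  rw [← QuotientGroup.mk_pow, QuotientGroup.eq_one_iff] at h1
  exact h1

/-- a Frobenius element in `H' \ H` -/
theorem exists_frob_sdiff {H H' : Subgroup (GK F)} (hH : IsOpen (H : Set (GK F))) (hle : H ≤ H')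
    {p : ℕ} (hp : p.Prime) (hidx : H.relIndex H' = p) {B : HeightOneSpectrum (𝓞 F) → Prop}
    (hB : Tendsto (dens B) atTop (𝓝 0)) : ∃ v, ¬ B v ∧ ∃ g ∈ H', g ∉ H ∧ IsFrob v g := by
  obtain ⟨x₀, hx₀, hx₀H⟩ : ∃ x ∈ H', x ∉ H := by
    by_contra hcon
    push Not at hcon
    have h1 : H.relIndex H' = 1 := Subgroup.relIndex_eq_one.mpr fun x hx => hcon x hx
    rw [h1] at hidx
    exact hp.one_lt.ne hidx
  obtain ⟨v₀, hv₀, h₀, hh₀, hfr₀⟩ := exists_frob_coset H hH x₀ _ hB
  exact ⟨v₀, hv₀, x₀ * h₀, H'.mul_mem hx₀ (hle hh₀),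
    fun h => hx₀H ((H.mul_mem_cancel_right hh₀).mp h), hfr₀⟩

/-- a subgroup which contains `H` and an element of `H' \ H` contains `H'` -/
theorem le_of_prime {H H' M : Subgroup (GK F)} (hle : H ≤ H')
    (hnorm : (H.subgroupOf H').Normal) {p : ℕ} (hp : p.Prime) (hidx : H.relIndex H' = p)
    (hHM : H ≤ M) {g : GK F} (hg : g ∈ H') (hgH : g ∉ H) (hgM : g ∈ M) : H' ≤ M := by
  have h1 : M.subgroupOf H' = ⊤ := eq_top_of_prime (N := H.subgroupOf H') (g := ⟨g, hg⟩) hp hidx
    (fun x hx => hHM hx) hgH hgM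
  exact Subgroup.subgroupOf_eq_top.mp h1

section main

variable [IsAlgClosed K]

/-- the property of all `x` in a tower -/
theorem tower_small {𝒯 : Set (K ≃+* K)} {V : Set (HeightOneSpectrum (𝓞 F))}
    {T : HeightOneSpectrum (𝓞 F) → K[X]} (hTn : ∀ v, (T v).natDegree = n)
    (hTτ : ∀ τ ∈ 𝒯, ∀ v, (T v).map (τ : K →+* K) = T v)
    {B : HeightOneSpectrum (𝓞 F) → Prop} (hB : Tendsto (dens B) atTop (𝓝 0))
    {R R' : GK F →* GL (Fin n) K} [CharZero K]
    (h : ∀ v, ¬ B v → ∀ σ : GK F, IsFrob v σ → (R σ : Matrix (Fin n) (Fin n) K).charpoly = T v)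
    (h' : ∀ v, ¬ B v → ∀ σ : GK F, IsFrob v σ → (R' σ : Matrix (Fin n) (Fin n) K).charpoly = T v)
    {H : Subgroup (GK F)} (hT : Tower 𝒯 n V H) : IsOpen (H : Set (GK F)) →
    (∀ x ∈ H, R' x = R x) → ∀ x, R' x = R x := by
  induction hT with
  | top => exact fun _ h x => h x (Subgroup.mem_top x)
  | step H H' p τ hτ hp _ hle hnorm hidx _ ih =>
    intro hH hRR
    refine ih (Subgroup.isOpen_mono hle hH) ?_
    have hp0 : (p : K) ≠ 0 := Nat.cast_ne_zero.mpr hp.1.ne_zero
    obtain ⟨v, hv, g, hg, hgH, hfr⟩ := exists_frob_sdiff hH hle hp.1 hidx hB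
    have hpw := pow_mem_of_relIndex hnorm hidx hg
    have hconj : ∀ x ∈ H, g * x * g⁻¹ ∈ H := fun x hx =>
      hnorm.conj_mem ⟨x, hle hx⟩ hx ⟨g, hg⟩
    have hconj' : ∀ x ∈ H, g⁻¹ * x * g ∈ H := fun x hx => by
      have h1 : g⁻¹ * x * g⁻¹⁻¹ ∈ H := hnorm.conj_mem ⟨x, hle hx⟩ hx (⟨g, hg⟩⁻¹ : H')
      rwa [inv_inv] at h1
    have hsm : ∀ x ∈ (T v).roots, Small τ n x := small_roots_one (hTn v).le (hTτ τ hτ v)
    have hBB : R' g = R g := eq_of_small hp hp0 (S := {s | ∃ x ∈ H, s = R x})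
      (fun x hx => hsm x (by rwa [h v hv g hfr] at hx))
      (fun x hx => hsm x (by rwa [h' v hv g hfr] at hx))
      (by
        rintro _ ⟨x, hx, rfl⟩
        exact ⟨g⁻¹ * x * g, hconj' x hx, by rw [map_mul, map_mul, map_inv]⟩)
      (by
        rintro _ ⟨x, hx, rfl⟩
        rw [← map_inv, ← map_mul, ← map_mul, ← hRR _ (hconj x hx), map_mul, map_mul, map_inv,
          hRR x hx])
      ⟨g ^ p, hpw, by rw [map_pow]⟩ (by rw [← map_pow, hRR _ hpw, map_pow])
    intro x hx
    have h1 := le_of_prime (M := R'.eqLocus R) hle hnorm hp.1 hidx (fun x hx => hRR x hx) hg hgH hBB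
    exact h1 hx

/-- **Commutants** in a tower -/
theorem tower_comm {𝒯 : Set (K ≃+* K)} {V : Set (HeightOneSpectrum (𝓞 F))}
    {T : HeightOneSpectrum (𝓞 F) → K[X]} (hTn : ∀ v, (T v).natDegree = n)
    (hTτ : ∀ τ ∈ 𝒯, ∀ v, (T v).map (τ : K →+* K) = T v)
    {B : HeightOneSpectrum (𝓞 F) → Prop} (hB : Tendsto (dens B) atTop (𝓝 0))
    {R : GK F →* GL (Fin n) K} [CharZero K]
    (h : ∀ v, ¬ B v → ∀ σ : GK F, IsFrob v σ → (R σ : Matrix (Fin n) (Fin n) K).charpoly = T v)
    {X : Matrix (Fin n) (Fin n) K}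
    {H : Subgroup (GK F)} (hT : Tower 𝒯 n V H) : IsOpen (H : Set (GK F)) →
    (∀ x ∈ H, (R x : Matrix (Fin n) (Fin n) K) * X = X * R x) →
      ∀ x, (R x : Matrix (Fin n) (Fin n) K) * X = X * R x := by
  induction hT with
  | top => exact fun _ h x => h x (Subgroup.mem_top x)
  | step H H' p τ hτ hp _ hle hnorm hidx _ ih =>
    intro hH hX
    refine ih (Subgroup.isOpen_mono hle hH) ?_
    have hp0 : (p : K) ≠ 0 := Nat.cast_ne_zero.mpr hp.1.ne_zero
    obtain ⟨v, hv, g, hg, hgH, hfr⟩ := exists_frob_sdiff hH hle hp.1 hidx hB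
    have hpw := pow_mem_of_relIndex hnorm hidx hg
    have hconj' : ∀ x ∈ H, g⁻¹ * x * g ∈ H := fun x hx => by
      have h1 : g⁻¹ * x * g⁻¹⁻¹ ∈ H := hnorm.conj_mem ⟨x, hle hx⟩ hx (⟨g, hg⟩⁻¹ : H')
      rwa [inv_inv] at h1
    have hsm : ∀ x ∈ (T v).roots, Small τ n x := small_roots_one (hTn v).le (hTτ τ hτ v)
    have hgX := comm_of_small hp hp0 (S := {s | ∃ x ∈ H, s = (R x : Matrix (Fin n) (Fin n) K)})
      (B := R g) (fun x hx => hsm x (by rwa [h v hv g hfr] at hx))
      (by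
        rintro _ ⟨x, hx, rfl⟩
        exact ⟨g⁻¹ * x * g, hconj' x hx, by
          rw [map_mul, map_mul, map_inv, Units.val_mul, Units.val_mul]⟩)
      ⟨g ^ p, hpw, by rw [map_pow]⟩ (X := X) (by
        rintro _ ⟨x, hx, rfl⟩
        exact hX x hx)
    let M : Subgroup (GK F) :=
      { carrier := {x | (R x : Matrix (Fin n) (Fin n) K) * X = X * R x}
        one_mem' := by
          change (R 1 : Matrix (Fin n) (Fin n) K) * X = X * R 1
          rw [map_one, Units.val_one, one_mul, mul_one]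
        mul_mem' := by
          intro a b ha hb
          change (R (a * b) : Matrix (Fin n) (Fin n) K) * X = X * R (a * b)
          change (R a : Matrix (Fin n) (Fin n) K) * X = X * R a at ha
          change (R b : Matrix (Fin n) (Fin n) K) * X = X * R b at hb
          rw [map_mul, Units.val_mul, mul_assoc, hb, ← mul_assoc, ha, mul_assoc]
        inv_mem' := by
          intro a ha
          change (R a : Matrix (Fin n) (Fin n) K) * X = X * R a at ha
          change (R a⁻¹ : Matrix (Fin n) (Fin n) K) * X = X * R a⁻¹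
          have h1 : (R a⁻¹ : Matrix (Fin n) (Fin n) K) * R a = 1 := by
            rw [← Units.val_mul, ← map_mul, inv_mul_cancel, map_one, Units.val_one]
          have h2 : (R a : Matrix (Fin n) (Fin n) K) * R a⁻¹ = 1 := by
            rw [← Units.val_mul, ← map_mul, mul_inv_cancel, map_one, Units.val_one]
          calc (R a⁻¹ : Matrix (Fin n) (Fin n) K) * X
              = R a⁻¹ * X * (R a * R a⁻¹) := by rw [h2, mul_one]
            _ = R a⁻¹ * (X * R a) * R a⁻¹ := by simp only [mul_assoc]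
            _ = R a⁻¹ * R a * X * R a⁻¹ := by rw [← ha]; simp only [mul_assoc]
            _ = X * R a⁻¹ := by rw [h1, one_mul] }
    have h1 := le_of_prime (M := M) hle hnorm hp.1 hidx (fun x hx => hX x hx) hg hgH hgX
    exact fun x hx => h1 hx

end main

end Run7.h427.CZ
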