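import Pool.Agent.Run7.h427.CZ.Small
import Pool.Agent.Run7.h427.DT.Sub
import Pool.Agent.Run7.h427.PL.Sem

/-!
# Decomposition of semisimple matrix representations
-/

set_option autoImplicit false

namespace Run7.h427.CZ

open Module Polynomial Matrix
open Run7.h427.CY Run7.h427.DT
open Run7.h427.DS (Semis)

open scoped MonoidAlgebra

variable {K : Type} [Field K] {G : Type} [Group G]

/-- a vector as an element of the module -/
def toM {d : ℕ} (Y : G →* GL (Fin d) K) (v : Fin d → K) : (Pool.Agent.R390.SF.rp Y).asModule := v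

theorem single_smul_toM {d : ℕ} (Y : G →* GL (Fin d) K) (g : G) (v : Fin d → K) :
    (MonoidAlgebra.single g (1 : K) : K[G]) • toM Y v =
      toM Y ((Y g : Matrix (Fin d) (Fin d) K) *ᵥ v) := by
  have h1 : (MonoidAlgebra.single g (1 : K) : K[G]) • toM Y v =
      (1 : K) • toM Y (Matrix.toLin' (Y g : Matrix (Fin d) (Fin d) K) v) :=
    Representation.single_smul _ _ _ _
  rw [h1, one_smul, Matrix.toLin'_apply]

/-- **Burnside's theorem.** -/
theorem spans_of_irr [IsAlgClosed K] {d : ℕ} (hd : 0 < d) {Y : G →* GL (Fin d) K}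
    (h : ∀ W : Submodule K (Fin d → K), Stab Y W → W = ⊥ ∨ W = ⊤) : Spans Y := by
  classical
  have hss : Pool.Agent.R390.SF.Semis Y := by
    intro U hU
    rcases h U hU with h1 | h1
    · refine ⟨⊤, fun g u _ => Submodule.mem_top, ?_⟩
      rw [h1]
      exact isCompl_bot_top
    · refine ⟨⊥, fun g u hu => ?_, ?_⟩
      · rw [Submodule.mem_bot] at hu
        rw [hu, Submodule.mem_bot]
        exact Matrix.mulVec_zero _
      · rw [h1]
        exact isCompl_top_bot
  have hssm := Pool.Agent.R390.SF.semis_module hss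
  -- Schur
  have hschur : ∀ φ : Module.End K[G] (Pool.Agent.R390.SF.rp Y).asModule,
      ∃ c : K, ∀ v : Fin d → K, φ (toM Y v) = toM Y (c • v) := by
    intro φ
    let f : Module.End K (Fin d → K) :=
      { toFun := fun v => φ (toM Y v)
        map_add' := fun v w => map_add φ (toM Y v) (toM Y w)
        map_smul' := fun c v => (φ.restrictScalars K).map_smul c (toM Y v) }
    have hne : Nontrivial (Fin d → K) := by
      have : Nonempty (Fin d) := ⟨⟨0, hd⟩⟩
      infer_instance
    obtain ⟨c, hc⟩ := Module.End.exists_eigenvalue f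
    refine ⟨c, fun v => ?_⟩
    rcases h (f.eigenspace c) (by
      intro g w hw
      rw [Module.End.mem_eigenspace_iff] at hw ⊢
      have h1 : φ ((MonoidAlgebra.single g (1 : K) : K[G]) • toM Y w) =
          (MonoidAlgebra.single g (1 : K) : K[G]) • φ (toM Y w) := map_smul φ _ _
      rw [single_smul_toM] at h1
      have h3 : (MonoidAlgebra.single g (1 : K) : K[G]) • toM Y (f w) =
        toM Y ((Y g : Matrix (Fin d) (Fin d) K) *ᵥ (f w)) := single_smul_toM Y g (f w)
      have h2 : f ((Y g : Matrix (Fin d) (Fin d) K) *ᵥ w) =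
          (Y g : Matrix (Fin d) (Fin d) K) *ᵥ (f w) := h1.trans h3
      rw [h2, hw, Matrix.mulVec_smul]) with h1 | h1
    · exact absurd h1 hc
    · have h2 : v ∈ f.eigenspace c := by
        rw [h1]
        exact Submodule.mem_top
      exact Module.End.mem_eigenspace_iff.mp h2
  -- density
  unfold Spans
  rw [eq_top_iff]
  intro A _
  let e : Module.End (Module.End K[G] (Pool.Agent.R390.SF.rp Y).asModule)
      (Pool.Agent.R390.SF.rp Y).asModule :=
    { toFun := fun v => toM Y (A *ᵥ v)
      map_add' := fun v w => Matrix.mulVec_add A v w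
      map_smul' := fun φ v => by
        obtain ⟨c, hc⟩ := hschur φ
        have h1 : φ • v = toM Y (c • (v : Fin d → K)) := hc v
        have h2 : φ • (toM Y (A *ᵥ v)) = toM Y (c • (A *ᵥ v)) := hc (A *ᵥ v)
        rw [RingHom.id_apply, h2]
        exact (congrArg (fun u : Fin d → K => toM Y (A *ᵥ u)) h1).trans
          (congrArg (toM Y) (Matrix.mulVec_smul A c v)) }
  obtain ⟨a, ha⟩ := jacobson_density (R := K[G]) e
    (Finset.univ.image fun i : Fin d => toM Y (Pi.single i 1))
  have ha' : ∀ i : Fin d, a • toM Y (Pi.single i 1) = toM Y (A *ᵥ Pi.single i 1) := fun i =>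
    (ha _ (Finset.mem_image_of_mem _ (Finset.mem_univ i))).symm
  -- the action of `a` is a matrix of the span
  have hkey : ∀ a : K[G], ∃ B ∈ Submodule.span K (Set.range fun g =>
      (Y g : Matrix (Fin d) (Fin d) K)), ∀ v : Fin d → K, a • toM Y v = toM Y (B *ᵥ v) := by
    intro a
    induction a using MonoidAlgebra.induction_on with
    | of g =>
      exact ⟨_, Submodule.subset_span ⟨g, rfl⟩, fun v => single_smul_toM Y g v⟩
    | add a b ha hb =>
      obtain ⟨B, hB, hB'⟩ := ha
      obtain ⟨C, hC, hC'⟩ := hb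
      refine ⟨B + C, Submodule.add_mem _ hB hC, fun v => ?_⟩
      rw [add_smul, hB', hC', Matrix.add_mulVec]
      rfl
    | smul c a ha =>
      obtain ⟨B, hB, hB'⟩ := ha
      refine ⟨c • B, Submodule.smul_mem _ c hB, fun v => ?_⟩
      rw [smul_assoc, hB', Matrix.smul_mulVec]
      rfl
  obtain ⟨B, hB, hB'⟩ := hkey a
  have hAB : A = B := by
    apply Matrix.ext_of_mulVec_single
    intro i
    have h1 := (ha' i).symm.trans (hB' (Pi.single i 1))
    exact h1
  rw [hAB]
  exact hB

/-- **Schur's lemma** for intertwining matrices between absolutely irreducible representations -/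
theorem trace_of_intertwine {d e : ℕ} {Y : G →* GL (Fin d) K} {Z : G →* GL (Fin e) K}
    (hY : Spans Y) (hZ : Spans Z) {M : Matrix (Fin e) (Fin d) K} (hM : M ≠ 0)
    (h : ∀ g, (Z g : Matrix (Fin e) (Fin e) K) * M = M * (Y g : Matrix (Fin d) (Fin d) K)) :
    d = e ∧ ∀ g, (Y g : Matrix (Fin d) (Fin d) K).trace = (Z g : Matrix (Fin e) (Fin e) K).trace := by
  classical
  -- stability under all matrices
  have hYall : ∀ (W : Submodule K (Fin d → K)), (∀ g, ∀ w ∈ W,
      (Y g : Matrix (Fin d) (Fin d) K) *ᵥ w ∈ W) → ∀ (A : Matrix (Fin d) (Fin d) K),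
      ∀ w ∈ W, A *ᵥ w ∈ W := by
    intro W hW A w hw
    have hA : A ∈ Submodule.span K (Set.range fun g => (Y g : Matrix (Fin d) (Fin d) K)) := by
      have h' : Submodule.span K (Set.range fun g => (Y g : Matrix (Fin d) (Fin d) K)) = ⊤ := hY
      rw [h']
      exact Submodule.mem_top
    induction hA using Submodule.span_induction with
    | mem x hx =>
      obtain ⟨g, rfl⟩ := hx
      exact hW g w hw
    | zero => rw [Matrix.zero_mulVec]; exact W.zero_mem
    | add x y _ _ hx hy => rw [Matrix.add_mulVec]; exact W.add_mem hx hy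
    | smul c x _ hx => rw [Matrix.smul_mulVec]; exact W.smul_mem c hx
  have hZall : ∀ (W : Submodule K (Fin e → K)), (∀ g, ∀ w ∈ W,
      (Z g : Matrix (Fin e) (Fin e) K) *ᵥ w ∈ W) → ∀ (A : Matrix (Fin e) (Fin e) K),
      ∀ w ∈ W, A *ᵥ w ∈ W := by
    intro W hW A w hw
    have hA : A ∈ Submodule.span K (Set.range fun g => (Z g : Matrix (Fin e) (Fin e) K)) := by
      have h' : Submodule.span K (Set.range fun g => (Z g : Matrix (Fin e) (Fin e) K)) = ⊤ := hZ
      rw [h']
      exact Submodule.mem_top
    induction hA using Submodule.span_induction with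
    | mem x hx =>
      obtain ⟨g, rfl⟩ := hx
      exact hW g w hw
    | zero => rw [Matrix.zero_mulVec]; exact W.zero_mem
    | add x y _ _ hx hy => rw [Matrix.add_mulVec]; exact W.add_mem hx hy
    | smul c x _ hx => rw [Matrix.smul_mulVec]; exact W.smul_mem c hx
  -- transitivity of all matrices
  have htr : ∀ {m : ℕ} (W : Submodule K (Fin m → K)), (∀ (A : Matrix (Fin m) (Fin m) K),
      ∀ w ∈ W, A *ᵥ w ∈ W) → ∀ w ∈ W, w ≠ 0 → W = ⊤ := by
    intro m W hW w hw hw0
    rw [eq_top_iff]
    intro u _
    obtain ⟨i, hi⟩ := Function.ne_iff.mp hw0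
    have h1 := hW (Matrix.vecMulVec u (Pi.single i (w i)⁻¹)) w hw
    have h2 : Matrix.vecMulVec u (Pi.single i (w i)⁻¹) *ᵥ w = u := by
      rw [Matrix.vecMulVec_mulVec, single_dotProduct, inv_mul_cancel₀ hi]
      simp
    rwa [h2] at h1
  let f : (Fin d → K) →ₗ[K] (Fin e → K) := Matrix.toLin' M
  have hf0 : f ≠ 0 := by
    intro h0
    apply hM
    apply Matrix.toLin'.injective
    rw [map_zero]
    exact h0
  have hcomm : ∀ g v, (Z g : Matrix (Fin e) (Fin e) K) *ᵥ (f v) =
      f ((Y g : Matrix (Fin d) (Fin d) K) *ᵥ v) := by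
    intro g v
    change _ *ᵥ (Matrix.toLin' M v) = Matrix.toLin' M _
    rw [Matrix.toLin'_apply, Matrix.toLin'_apply, Matrix.mulVec_mulVec, Matrix.mulVec_mulVec, h]
  have hker : LinearMap.ker f = ⊥ := by
    by_contra hne
    obtain ⟨w, hw, hw0⟩ := Submodule.exists_mem_ne_zero_of_ne_bot hne
    have h1 := htr (LinearMap.ker f) (hYall _ (by
      intro g w hw
      rw [LinearMap.mem_ker] at hw ⊢
      rw [← hcomm, hw, Matrix.mulVec_zero])) w hw hw0
    exact hf0 (LinearMap.ker_eq_top.mp h1)
  have hran : LinearMap.range f = ⊤ := by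
    obtain ⟨v, hv⟩ : ∃ v, f v ≠ 0 := by
      by_contra hcon
      push Not at hcon
      exact hf0 (LinearMap.ext hcon)
    refine htr (LinearMap.range f) (hZall _ (by
      rintro g _ ⟨v, rfl⟩
      exact ⟨_, (hcomm g v).symm⟩)) (f v) ⟨v, rfl⟩ hv
  let F : (Fin d → K) ≃ₗ[K] (Fin e → K) :=
    LinearEquiv.ofBijective f ⟨LinearMap.ker_eq_bot.mp hker, LinearMap.range_eq_top.mp hran⟩
  have hde : d = e := by
    have := F.finrank_eq
    rwa [Module.finrank_fin_fun, Module.finrank_fin_fun] at this
  refine ⟨hde, fun g => ?_⟩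
  have h1 : Matrix.toLin' (Z g : Matrix (Fin e) (Fin e) K) =
      F.conj (Matrix.toLin' (Y g : Matrix (Fin d) (Fin d) K)) := by
    apply LinearMap.ext
    intro u
    obtain ⟨v, rfl⟩ := F.surjective u
    rw [LinearEquiv.conj_apply_apply, LinearEquiv.symm_apply_apply, Matrix.toLin'_apply,
      Matrix.toLin'_apply]
    exact hcomm g v
  have h2 := LinearMap.trace_conj' (Matrix.toLin' (Y g : Matrix (Fin d) (Fin d) K)) F
  rw [← h1, Matrix.trace_toLin'_eq, Matrix.trace_toLin'_eq] at h2
  exact h2.symm

/-- the matrices of a stable subspace with a stable complement -/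
theorem split_rep {n d : ℕ} {σ : G →* GL (Fin n) K} {U W : Submodule K (Fin n → K)}
    (hU : Stab σ U) (hW : Stab σ W) (hUW : IsCompl U W) (hd : finrank K U = d) :
    ∃ (X : G →* GL (Fin d) K) (P : Matrix (Fin d) (Fin n) K) (I : Matrix (Fin n) (Fin d) K),
      P * I = 1 ∧
      (∀ g, (σ g : Matrix (Fin n) (Fin n) K) * I = I * (X g : Matrix (Fin d) (Fin d) K)) ∧
      (∀ g, P * (σ g : Matrix (Fin n) (Fin n) K) = (X g : Matrix (Fin d) (Fin d) K) * P) ∧
      (∀ v, I *ᵥ v ∈ U) ∧ (∀ w ∈ W, P *ᵥ w = 0) ∧ (∀ u ∈ U, I *ᵥ (P *ᵥ u) = u) := by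
  classical
  let b : Basis (Fin d) K U := (finBasis K U).reindex (finCongr hd)
  let pr : (Fin n → K) →ₗ[K] U := U.projectionOnto W hUW
  have hpr : ∀ u : U, pr u = u := fun u => Submodule.projectionOnto_apply_left hUW u
  have hprW : ∀ w ∈ W, pr w = 0 := fun w hw =>
    (Submodule.projectionOnto_apply_eq_zero_iff hUW).mpr hw
  let Il : (Fin d → K) →ₗ[K] (Fin n → K) := U.subtype.comp b.equivFun.symm.toLinearMap
  let Pl : (Fin n → K) →ₗ[K] (Fin d → K) := b.equivFun.toLinearMap.comp pr
  let I : Matrix (Fin n) (Fin d) K := LinearMap.toMatrix' Il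
  let P : Matrix (Fin d) (Fin n) K := LinearMap.toMatrix' Pl
  have hI : ∀ v, I *ᵥ v = (b.equivFun.symm v : U) := by
    intro v
    rw [← Matrix.toLin'_apply, Matrix.toLin'_toMatrix']
    rfl
  have hP : ∀ w, P *ᵥ w = b.equivFun (pr w) := by
    intro w
    rw [← Matrix.toLin'_apply, Matrix.toLin'_toMatrix']
    rfl
  have hIU : ∀ v, I *ᵥ v ∈ U := fun v => by rw [hI]; exact Subtype.mem _
  have hIP : ∀ u ∈ U, I *ᵥ (P *ᵥ u) = u := by
    intro u hu
    have h1 : pr u = (⟨u, hu⟩ : U) := hpr ⟨u, hu⟩
    rw [hI, hP, h1, LinearEquiv.symm_apply_apply]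
  have hPI : P * I = 1 := by
    apply Matrix.toLin'.injective
    apply LinearMap.ext
    intro v
    rw [Matrix.toLin'_mul, LinearMap.comp_apply, Matrix.toLin'_apply, Matrix.toLin'_apply,
      Matrix.toLin'_one, LinearMap.id_apply, hP, hI, hpr, LinearEquiv.apply_symm_apply]
  have hPW : ∀ w ∈ W, P *ᵥ w = 0 := by
    intro w hw
    rw [hP, hprW w hw, map_zero]
  let M : G → Matrix (Fin d) (Fin d) K := fun g => P * (σ g : Matrix (Fin n) (Fin n) K) * I
  have hσI : ∀ g, (σ g : Matrix (Fin n) (Fin n) K) * I = I * M g := by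
    intro g
    apply Matrix.toLin'.injective
    apply LinearMap.ext
    intro v
    rw [Matrix.toLin'_apply, Matrix.toLin'_apply, ← Matrix.mulVec_mulVec, ← Matrix.mulVec_mulVec]
    change _ = I *ᵥ ((P * (σ g : Matrix (Fin n) (Fin n) K) * I) *ᵥ v)
    rw [← Matrix.mulVec_mulVec, ← Matrix.mulVec_mulVec, hIP _ (hU g _ (hIU v))]
  have hPσ : ∀ g, P * (σ g : Matrix (Fin n) (Fin n) K) = M g * P := by
    intro g
    apply Matrix.toLin'.injective
    apply LinearMap.ext
    intro v
    obtain ⟨u, hu, w, hw, rfl⟩ := Submodule.mem_sup.mp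
      (show v ∈ U ⊔ W by rw [hUW.sup_eq_top]; exact Submodule.mem_top)
    rw [Matrix.toLin'_apply, Matrix.toLin'_apply]
    change _ = ((P * (σ g : Matrix (Fin n) (Fin n) K) * I) * P) *ᵥ (u + w)
    rw [← Matrix.mulVec_mulVec, ← Matrix.mulVec_mulVec, ← Matrix.mulVec_mulVec,
      ← Matrix.mulVec_mulVec]
    rw [Matrix.mulVec_add P u w, hPW w hw, add_zero, hIP u hu, Matrix.mulVec_add, Matrix.mulVec_add,
      hPW _ (hW g w hw), add_zero]
  have hM1 : M 1 = 1 := by
    change P * (σ 1 : Matrix (Fin n) (Fin n) K) * I = 1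
    rw [map_one, Units.val_one, Matrix.mul_one, hPI]
  have hMm : ∀ g h, M (g * h) = M g * M h := by
    intro g h
    change P * (σ (g * h) : Matrix (Fin n) (Fin n) K) * I = _
    rw [map_mul, Units.val_mul, ← Matrix.mul_assoc, Matrix.mul_assoc (P * _), hσI h, ← Matrix.mul_assoc]
  let X0 : G →* Matrix (Fin d) (Fin d) K := ⟨⟨M, hM1⟩, hMm⟩
  let X : G →* GL (Fin d) K := X0.toHomUnits
  exact ⟨X, P, I, hPI, hσI, hPσ, hIU, hPW, hIP⟩

/-- A decomposition of a representation into absolutely irreducible ones. -/
structure Dec {n : ℕ} (σ : G →* GL (Fin n) K) where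
  J : Type
  fin : Fintype J
  dec : DecidableEq J
  d : J → ℕ
  pos : ∀ j, 0 < d j
  Y : ∀ j, G →* GL (Fin (d j)) K
  spans : ∀ j, Spans (Y j)
  iota : ∀ j, Matrix (Fin n) (Fin (d j)) K
  proj : ∀ j, Matrix (Fin (d j)) (Fin n) K
  proj_iota : ∀ j, proj j * iota j = 1
  proj_iota' : ∀ j k, j ≠ k → proj j * iota k = 0
  sum_eq : ∑ j, iota j * proj j = 1
  comm_iota : ∀ j x, (σ x : Matrix (Fin n) (Fin n) K) * iota j =
    iota j * (Y j x : Matrix (Fin (d j)) (Fin (d j)) K)
  comm_proj : ∀ j x, proj j * (σ x : Matrix (Fin n) (Fin n) K) =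
    (Y j x : Matrix (Fin (d j)) (Fin (d j)) K) * proj j

instance {n : ℕ} {σ : G →* GL (Fin n) K} (D : Dec σ) : Fintype D.J := D.fin

instance {n : ℕ} {σ : G →* GL (Fin n) K} (D : Dec σ) : DecidableEq D.J := D.dec

/-- **Semisimple representations have decompositions.** -/
theorem exists_dec [IsAlgClosed K] : ∀ (n : ℕ) (σ : G →* GL (Fin n) K), Semis σ →
    Nonempty (Dec σ) := by
  classical
  intro n
  induction n using Nat.strong_induction_on with
  | _ n ih =>
    intro σ hσ
    rcases Nat.eq_zero_or_pos n with hn | hn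
    · subst hn
      exact ⟨{
        J := Empty
        fin := inferInstance
        dec := inferInstance
        d := fun j => j.elim
        pos := fun j => j.elim
        Y := fun j => j.elim
        spans := fun j => j.elim
        iota := fun j => j.elim
        proj := fun j => j.elim
        proj_iota := fun j => j.elim
        proj_iota' := fun j => j.elim
        sum_eq := Subsingleton.elim _ _
        comm_iota := fun j => j.elim
        comm_proj := fun j => j.elim }⟩
    have hne : Nontrivial (Fin n → K) := by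
      have : Nonempty (Fin n) := ⟨⟨0, hn⟩⟩
      infer_instance
    obtain ⟨A, hA, -, hA0, hAmin⟩ := exists_min (ρ := σ) (V := ⊤) (fun g w _ => Submodule.mem_top)
      top_ne_bot
    obtain ⟨C, hC, hAC⟩ := hσ A hA
    have hfr := Submodule.finrank_add_eq_of_isCompl hAC
    rw [Module.finrank_fin_fun] at hfr
    have hApos : 0 < finrank K A := by
      rw [Nat.pos_iff_ne_zero]
      exact fun h => hA0 (Submodule.finrank_eq_zero.mp h)
    obtain ⟨X, P, I, hPI, hσI, hPσ, hIU, hPW, hIP⟩ := split_rep hA hC hAC rfl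
    obtain ⟨X', P', I', hPI', hσI', hPσ', hIU', hPW', hIP'⟩ := split_rep hC hA hAC.symm rfl
    have hinj : ∀ v w, I *ᵥ v = I *ᵥ w → v = w := by
      intro v w h
      have := congrArg (fun u => P *ᵥ u) h
      simp only [Matrix.mulVec_mulVec, hPI, Matrix.one_mulVec] at this
      exact this
    have hinj' : ∀ v w, I' *ᵥ v = I' *ᵥ w → v = w := by
      intro v w h
      have := congrArg (fun u => P' *ᵥ u) h
      simp only [Matrix.mulVec_mulVec, hPI', Matrix.one_mulVec] at this
      exact this
    have hXirr : ∀ W : Submodule K (Fin (finrank K A) → K), Stab X W → W = ⊥ ∨ W = ⊤ := by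
      intro W hW
      have h1 : Stab σ (W.map (Matrix.toLin' I)) := by
        rintro g _ ⟨w, hw, rfl⟩
        refine ⟨(X g : Matrix _ _ K) *ᵥ w, hW g w hw, ?_⟩
        rw [Matrix.toLin'_apply, Matrix.toLin'_apply, Matrix.mulVec_mulVec, Matrix.mulVec_mulVec,
          hσI]
      rcases hAmin _ h1 (by
        rintro _ ⟨w, -, rfl⟩
        rw [Matrix.toLin'_apply]
        exact hIU w) with h2 | h2
      · left
        rw [eq_bot_iff]
        intro w hw
        have h3 : Matrix.toLin' I w ∈ W.map (Matrix.toLin' I) := ⟨w, hw, rfl⟩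
        rw [h2, Submodule.mem_bot, Matrix.toLin'_apply] at h3
        rw [Submodule.mem_bot]
        exact hinj _ _ (by rw [h3, Matrix.mulVec_zero])
      · right
        rw [eq_top_iff]
        intro w _
        have h3 : I *ᵥ w ∈ W.map (Matrix.toLin' I) := by
          rw [h2]
          exact hIU w
        obtain ⟨u, hu, hu'⟩ := h3
        rw [Matrix.toLin'_apply] at hu'
        rw [← hinj _ _ hu']
        exact hu
    have hX's : Semis X' := by
      intro W hW
      have h1 : Stab σ (W.map (Matrix.toLin' I')) := by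
        rintro g _ ⟨w, hw, rfl⟩
        refine ⟨(X' g : Matrix _ _ K) *ᵥ w, hW g w hw, ?_⟩
        rw [Matrix.toLin'_apply, Matrix.toLin'_apply, Matrix.mulVec_mulVec, Matrix.mulVec_mulVec,
          hσI']
      obtain ⟨Z, hZ, hWZ⟩ := hσ _ h1
      refine ⟨Z.comap (Matrix.toLin' I'), ?_, ?_⟩
      · intro g w hw
        rw [Submodule.mem_comap, Matrix.toLin'_apply] at hw ⊢
        rw [Matrix.mulVec_mulVec, ← hσI', ← Matrix.mulVec_mulVec]
        exact hZ g _ hw
      · constructor
        · rw [disjoint_iff, eq_bot_iff]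
          rintro w ⟨h2, h3⟩
          have h4 : Matrix.toLin' I' w ∈ W.map (Matrix.toLin' I') ⊓ Z := ⟨⟨w, h2, rfl⟩, h3⟩
          rw [hWZ.disjoint.eq_bot, Submodule.mem_bot, Matrix.toLin'_apply] at h4
          rw [Submodule.mem_bot]
          exact hinj' _ _ (by rw [h4, Matrix.mulVec_zero])
        · rw [codisjoint_iff, eq_top_iff]
          intro w _
          have h2 : Matrix.toLin' I' w ∈ W.map (Matrix.toLin' I') ⊔ Z := by
            rw [hWZ.sup_eq_top]
            exact Submodule.mem_top
          obtain ⟨_, ⟨w₁, hw₁, rfl⟩, c, hc, hac⟩ := Submodule.mem_sup.mp h2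
          refine Submodule.mem_sup.mpr ⟨w₁, hw₁, w - w₁, ?_, by rw [add_sub_cancel]⟩
          rw [Submodule.mem_comap, map_sub, ← hac, add_sub_cancel_left]
          exact hc
    obtain ⟨D⟩ := ih (finrank K C) (by omega) X' hX's
    have hPI'0 : P * I' = 0 := by
      apply Matrix.toLin'.injective
      apply LinearMap.ext
      intro v
      rw [Matrix.toLin'_apply, ← Matrix.mulVec_mulVec, hPW _ (hIU' v), map_zero,
        LinearMap.zero_apply]
    have hP'I0 : P' * I = 0 := by
      apply Matrix.toLin'.injective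
      apply LinearMap.ext
      intro v
      rw [Matrix.toLin'_apply, ← Matrix.mulVec_mulVec, hPW' _ (hIU v), map_zero,
        LinearMap.zero_apply]
    have hsum : I * P + I' * P' = 1 := by
      apply Matrix.toLin'.injective
      apply LinearMap.ext
      intro v
      obtain ⟨u, hu, w, hw, rfl⟩ := Submodule.mem_sup.mp
        (show v ∈ A ⊔ C by rw [hAC.sup_eq_top]; exact Submodule.mem_top)
      rw [Matrix.toLin'_apply, Matrix.toLin'_one, LinearMap.id_apply, Matrix.add_mulVec,
        ← Matrix.mulVec_mulVec, ← Matrix.mulVec_mulVec, Matrix.mulVec_add P, Matrix.mulVec_add P',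
        hPW w hw, hPW' u hu, add_zero, zero_add, hIP u hu, hIP' w hw]
    refine ⟨{
      J := Option D.J
      fin := inferInstance
      dec := inferInstance
      d := fun o => match o with
        | none => finrank K A
        | some j => D.d j
      pos := fun o => by
        cases o with
        | none => exact hApos
        | some j => exact D.pos j
      Y := fun o => match o with
        | none => X
        | some j => D.Y j
      spans := fun o => by
        cases o with
        | none => exact spans_of_irr hApos hXirr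
        | some j => exact D.spans j
      iota := fun o => match o with
        | none => I
        | some j => I' * D.iota j
      proj := fun o => match o with
        | none => P
        | some j => D.proj j * P'
      proj_iota := fun o => by
        cases o with
        | none => exact hPI
        | some j =>
          change D.proj j * P' * (I' * D.iota j) = 1
          rw [Matrix.mul_assoc, ← Matrix.mul_assoc P', hPI', Matrix.one_mul, D.proj_iota]
      proj_iota' := fun o o' hoo' => by
        cases o with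
        | none =>
          cases o' with
          | none => exact absurd rfl hoo'
          | some k =>
            change P * (I' * D.iota k) = 0
            rw [← Matrix.mul_assoc, hPI'0, Matrix.zero_mul]
        | some j =>
          cases o' with
          | none =>
            change D.proj j * P' * I = 0
            rw [Matrix.mul_assoc, hP'I0, Matrix.mul_zero]
          | some k =>
            change D.proj j * P' * (I' * D.iota k) = 0
            rw [Matrix.mul_assoc, ← Matrix.mul_assoc P', hPI', Matrix.one_mul,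
              D.proj_iota' j k fun h => hoo' (by rw [h])]
      sum_eq := by
        rw [Fintype.sum_option]
        change I * P + ∑ j, I' * D.iota j * (D.proj j * P') = 1
        have h1 : ∑ j, I' * D.iota j * (D.proj j * P') = I' * (∑ j, D.iota j * D.proj j) * P' := by
          rw [Matrix.mul_sum, Matrix.sum_mul]
          refine Finset.sum_congr rfl fun j _ => ?_
          simp only [Matrix.mul_assoc]
        rw [h1, D.sum_eq, Matrix.mul_one, hsum]
      comm_iota := fun o x => by
        cases o with
        | none => exact hσI x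
        | some j =>
          change (σ x : Matrix (Fin n) (Fin n) K) * (I' * D.iota j) =
            I' * D.iota j * (D.Y j x : Matrix (Fin (D.d j)) (Fin (D.d j)) K)
          rw [← Matrix.mul_assoc, hσI', Matrix.mul_assoc, D.comm_iota, Matrix.mul_assoc]
      comm_proj := fun o x => by
        cases o with
        | none => exact hPσ x
        | some j =>
          change D.proj j * P' * (σ x : Matrix (Fin n) (Fin n) K) =
            (D.Y j x : Matrix (Fin (D.d j)) (Fin (D.d j)) K) * (D.proj j * P')
          rw [Matrix.mul_assoc, hPσ', ← Matrix.mul_assoc, D.comm_proj, Matrix.mul_assoc] }⟩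

end Run7.h427.CZ
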