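import Pool.Agent.Run7.h427.CZ.Dec

/-!
# Extensions of semisimple representations through cyclic quotients of good prime order
-/

set_option autoImplicit false

namespace Run7.h427.CZ

open Module Polynomial Matrix
open Run7.h427.CY Run7.h427.DT
open Run7.h427.DS (Semis)
open Run7.h427.PL (charpoly_conj trace_conj exists_iso)

variable {K : Type} [Field K] {G : Type} [Group G]

theorem Good.pow {τ : K ≃+* K} {n a d p : ℕ} (hp : Good τ n p) (ha : 1 ≤ a) (h : a * d ≤ n) :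
    Good (τ ^ a) d p := by
  refine ⟨hp.1, fun ζ hζ i hi hid => ?_⟩
  rw [← pow_mul]
  exact hp.2 ζ hζ (a * i) (Nat.mul_pos ha hi) ((Nat.mul_le_mul_left a hid).trans h)

theorem Good.lt [IsAlgClosed K] [CharZero K] {τ : K ≃+* K} {n p : ℕ} (hp : Good τ n p) : n < p := by
  by_contra hle
  rw [not_lt] at hle
  have hfact : Fact p.Prime := ⟨hp.1⟩
  have hne : NeZero p := ⟨hp.1.ne_zero⟩
  have hp0 : NeZero ((p : ℕ) : K) := ⟨Nat.cast_ne_zero.mpr hp.1.ne_zero⟩
  obtain ⟨ζ, hζ⟩ := HasEnoughRootsOfUnity.exists_primitiveRoot K p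
  let A : Multiset K := (Multiset.range p).map fun i => ζ ^ i
  have hA : A.card ≤ n := by
    rw [Multiset.card_map, Multiset.card_range]
    exact hle
  have hτA : ∀ x ∈ A, τ x ∈ A := by
    intro x hx
    obtain ⟨i, -, rfl⟩ := Multiset.mem_map.mp hx
    have h3 : (τ (ζ ^ i)) ^ p = 1 := by
      rw [← map_pow, ← pow_mul, mul_comm, pow_mul, hζ.pow_eq_one, one_pow, map_one]
    obtain ⟨j, hj, hj'⟩ := hζ.eq_pow_of_pow_eq_one h3
    exact Multiset.mem_map.mpr ⟨j, Multiset.mem_range.mpr hj, hj'⟩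
  have hζA : ζ ∈ A := Multiset.mem_map.mpr ⟨1, Multiset.mem_range.mpr hp.1.one_lt, pow_one ζ⟩
  obtain ⟨a, ha1, han, ha⟩ := exists_fix τ A hA hτA hζA
  exact hp.2 ζ hζ a ha1 han ha

/-- `η ↦ τ η / η` is surjective on the `p`-th roots of unity -/
theorem Good.exists_root {τ : K ≃+* K} {n p : ℕ} (hp : Good τ n p) (hn : 0 < n) {μ : K}
    (hμ : μ ^ p = 1) : ∃ η : K, η ^ p = 1 ∧ τ η = μ * η := by
  classical
  have hne : NeZero p := ⟨hp.1.ne_zero⟩
  have hμ0 : μ ≠ 0 := by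
    rintro rfl
    rw [zero_pow hp.1.ne_zero] at hμ
    exact zero_ne_one hμ
  let e : rootsOfUnity p K ≃* rootsOfUnity p K := τ.restrictRootsOfUnity p
  have he : ∀ u : rootsOfUnity p K, ((e u : Kˣ) : K) = τ ((u : Kˣ) : K) := fun u => rfl
  let f : rootsOfUnity p K → rootsOfUnity p K := fun u => e u / u
  have hf : Function.Injective f := by
    intro u v huv
    have h1 : e (u / v) = u / v := by
      rw [_root_.map_div]
      have h2 : e u / u = e v / v := huv
      rw [div_eq_div_iff_mul_eq_mul] at h2 ⊢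
      rw [h2, mul_comm]
    have h2 : (((u / v : rootsOfUnity p K) : Kˣ) : K) = 1 := by
      refine hp.eq_one (a := 1) ?_ le_rfl hn ?_
      · have h3 := (u / v).2
        rw [mem_rootsOfUnity'] at h3
        exact h3
      · rw [pow_one, ← he, h1]
    have h3 : u / v = 1 := Subtype.ext (Units.ext h2)
    exact div_eq_one.mp h3
  have hfs : Function.Surjective f := Finite.injective_iff_surjective.mp hf
  obtain ⟨u, hu⟩ := hfs (rootsOfUnity.mkOfPowEq μ hμ)
  refine ⟨((u : Kˣ) : K), ?_, ?_⟩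
  · have h3 := u.2
    rw [mem_rootsOfUnity'] at h3
    exact h3
  · have h1 : e u = rootsOfUnity.mkOfPowEq μ hμ * u := by
      rw [← hu]
      exact (div_mul_cancel (e u) u).symm
    have h2 := congrArg (fun w : rootsOfUnity p K => ((w : Kˣ) : K)) h1
    simp only [Subgroup.coe_mul, Units.val_mul, rootsOfUnity.coe_mkOfPowEq] at h2
    rw [← he, h2]

/-- **Extension of an absolutely irreducible representation** to one with stable characteristic
polynomials -/
theorem step_small [IsAlgClosed K] {n : ℕ} (hn : 0 < n) {N : Subgroup G} [hNn : N.Normal]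
    {σ : N →* GL (Fin n) K} (hσ : Spans σ) {τ : K ≃+* K} {p : ℕ} (hp : Good τ n p)
    (hidx : N.index = p) {g : G} (hg : g ∉ N)
    (ht : ∀ (x : G) (hx : x ∈ N), (σ ⟨g * x * g⁻¹, hNn.conj_mem x hx g⟩ :
      Matrix (Fin n) (Fin n) K).trace = (σ ⟨x, hx⟩ : Matrix (Fin n) (Fin n) K).trace)
    (hτ : ∀ x : N, τ (σ x : Matrix (Fin n) (Fin n) K).trace =
      (σ x : Matrix (Fin n) (Fin n) K).trace)
    (hgp : g ^ p ∈ N) :
    ∃ R : G →* GL (Fin n) K, (∀ (x : G) (hx : x ∈ N), R x = σ ⟨x, hx⟩) ∧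
      ∀ x, (R x : Matrix (Fin n) (Fin n) K).charpoly.map (τ : K →+* K) =
        (R x : Matrix (Fin n) (Fin n) K).charpoly := by
  have hne : Nonempty (Fin n) := ⟨⟨0, hn⟩⟩
  obtain ⟨A, hA⟩ := exists_hat hσ g ht
  have hAp : ((g ^ p, A ^ p) : G × GL (Fin n) K) ∈ Hat σ := (Hat σ).pow_mem hA p
  obtain ⟨c, hc⟩ := hat_unique hσ hAp (mem_hat_self hgp)
  have hc0 : c ≠ 0 := by
    rintro rfl
    rw [zero_smul] at hc
    exact (A ^ p).ne_zero hc
  obtain ⟨l, hl⟩ := IsAlgClosed.exists_pow_nat_eq c hp.1.pos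
  have hl0 : l ≠ 0 := by
    rintro rfl
    rw [zero_pow hp.1.ne_zero] at hl
    exact hc0 hl.symm
  let B₁ : GL (Fin n) K := sc n (Units.mk0 l hl0)⁻¹ * A
  have hB₁ : ((g, B₁) : G × GL (Fin n) K) ∈ Hat σ := sc_hat hA _
  have hB₁p : B₁ ^ p = σ ⟨g ^ p, hgp⟩ := by
    apply Units.ext
    rw [sc_pow, sc_mul, hc, smul_smul]
    have h1 : (((Units.mk0 l hl0)⁻¹ ^ p : Kˣ) : K) * c = 1 := by
      rw [Units.val_pow_eq_pow_val, Units.val_inv_eq_inv_val, Units.val_mk0, ← hl, ← mul_pow,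
        inv_mul_cancel₀ hl0, one_pow]
    rw [h1, one_smul]
  obtain ⟨P, hP⟩ := conj_of_trace σ ((mp n τ).comp σ) hσ (fun x => by
    rw [MonoidHom.comp_apply, trace_mp, hτ])
  have hP' : ∀ x, mp n τ (σ x) = P * σ x * P⁻¹ := hP
  have hC : ((g, P⁻¹ * mp n τ B₁ * P) : G × GL (Fin n) K) ∈ Hat σ := by
    intro y hy
    have h1 := hB₁ y hy
    change σ ⟨g * y * g⁻¹, _⟩ = B₁ * σ ⟨y, hy⟩ * B₁⁻¹ at h1
    have h2 := congrArg (mp n τ) h1
    rw [map_mul, map_mul, map_inv, hP', hP'] at h2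
    change σ ⟨g * y * g⁻¹, _⟩ = (P⁻¹ * mp n τ B₁ * P) * σ ⟨y, hy⟩ * (P⁻¹ * mp n τ B₁ * P)⁻¹
    calc σ ⟨g * y * g⁻¹, _⟩ = P⁻¹ * (P * σ ⟨g * y * g⁻¹, hNn.conj_mem y hy g⟩ * P⁻¹) * P := by group
      _ = P⁻¹ * (mp n τ B₁ * (P * σ ⟨y, hy⟩ * P⁻¹) * (mp n τ B₁)⁻¹) * P := by rw [h2]
      _ = _ := by group
  obtain ⟨μ, hμ⟩ := hat_unique hσ hC hB₁
  have hCp : (P⁻¹ * mp n τ B₁ * P) ^ p = B₁ ^ p := by
    have h1 : (P⁻¹ * mp n τ B₁ * P) ^ p = P⁻¹ * mp n τ (B₁ ^ p) * P := by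
      have h2 := conj_pow (a := P⁻¹) (b := mp n τ B₁) (i := p)
      rw [inv_inv] at h2
      rw [h2, map_pow]
    rw [h1, hB₁p, hP']
    group
  have hμp : μ ^ p = 1 := by
    have h1 := congrArg (fun X : GL (Fin n) K => (X : Matrix (Fin n) (Fin n) K)) hCp
    simp only [Units.val_pow_eq_pow_val] at h1
    rw [hμ, _root_.smul_pow, ← Units.val_pow_eq_pow_val] at h1
    by_contra hcon
    have h2 : (μ ^ p - 1) • ((B₁ ^ p : GL (Fin n) K) : Matrix (Fin n) (Fin n) K) = 0 := by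
      rw [sub_smul, one_smul, h1, sub_self]
    rcases smul_eq_zero.mp h2 with h3 | h3
    · exact hcon (sub_eq_zero.mp h3)
    · exact (B₁ ^ p).ne_zero h3
  have hμ0 : μ ≠ 0 := by
    rintro rfl
    rw [zero_pow hp.1.ne_zero] at hμp
    exact zero_ne_one hμp
  obtain ⟨η, hηp, hη⟩ := Good.exists_root hp hn (μ := μ⁻¹) (by rw [inv_pow, hμp, inv_one])
  have hη0 : η ≠ 0 := by
    rintro rfl
    rw [zero_pow hp.1.ne_zero] at hηp
    exact zero_ne_one hηp
  let B : GL (Fin n) K := sc n (Units.mk0 η hη0) * B₁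
  have hB : ((g, B) : G × GL (Fin n) K) ∈ Hat σ := sc_hat hB₁ _
  have hBp : B ^ p = σ ⟨g ^ p, hgp⟩ := by
    rw [sc_pow]
    have h1 : (Units.mk0 η hη0) ^ p = 1 := Units.ext (by
      rw [Units.val_pow_eq_pow_val, Units.val_mk0, hηp, Units.val_one])
    rw [h1, hB₁p]
    have h2 : sc n (1 : Kˣ) = 1 := by
      apply Units.ext
      ext i j
      simp [sc]
    rw [h2, one_mul]
  have hBτ : mp n τ B = P * B * P⁻¹ := by
    have h0 : (mp n τ B : Matrix (Fin n) (Fin n) K) =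
        τ η • (mp n τ B₁ : Matrix (Fin n) (Fin n) K) := by
      rw [mp_apply, mp_apply, sc_mul, Units.val_mk0]
      ext i j
      simp
    have hBv : (B : Matrix (Fin n) (Fin n) K) = η • (B₁ : Matrix (Fin n) (Fin n) K) := sc_mul _ _
    have h1 : P⁻¹ * mp n τ B * P = B := by
      apply Units.ext
      rw [Units.val_mul, Units.val_mul, h0, Matrix.mul_smul, Matrix.smul_mul, ← Units.val_mul,
        ← Units.val_mul, hμ, smul_smul, hη, hBv, mul_right_comm, inv_mul_cancel₀ hμ0, one_mul]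
    calc mp n τ B = P * (P⁻¹ * mp n τ B * P) * P⁻¹ := by group
      _ = P * B * P⁻¹ := by rw [h1]
  obtain ⟨R, hR, hRg⟩ := ext_cyclic hp.1 hidx hg B hB hgp hBp
  have hall : ∀ x, mp n τ (R x) = P * R x * P⁻¹ := by
    let M : Subgroup G := ((mp n τ).comp R).eqLocus ((MulAut.conj P).toMonoidHom.comp R)
    have hM : M = ⊤ := by
      refine eq_top_of_prime hp.1 hidx (fun x hx => ?_) hg ?_
      · change mp n τ (R x) = P * R x * P⁻¹
        rw [hR x hx, hP']
      · change mp n τ (R g) = P * R g * P⁻¹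
        rw [hRg, hBτ]
    intro x
    have hx : x ∈ M := by rw [hM]; exact Subgroup.mem_top x
    exact hx
  exact ⟨R, hR, fun x => by rw [← charpoly_mp, hall, charpoly_conj]⟩

/-- the number of the blocks of a given dimension -/
theorem Dec.card_le [CharZero K] {n : ℕ} {σ : G →* GL (Fin n) K} (D : Dec σ) (e : ℕ) :
    (Finset.univ.filter fun k => D.d k = e).card * e ≤ n := by
  have h1 : ((∑ j, D.d j : ℕ) : K) = (n : K) := by
    have h2 := congrArg Matrix.trace D.sum_eq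
    rw [Matrix.trace_sum, Matrix.trace_one, Fintype.card_fin] at h2
    rw [← h2, Nat.cast_sum]
    refine Finset.sum_congr rfl fun j _ => ?_
    rw [Matrix.trace_mul_comm, D.proj_iota, Matrix.trace_one, Fintype.card_fin]
  have h2 : ∑ j, D.d j = n := Nat.cast_injective h1
  calc (Finset.univ.filter fun k => D.d k = e).card * e
      = ∑ k ∈ Finset.univ.filter fun k => D.d k = e, D.d k := by
        rw [Finset.sum_congr rfl (fun k hk => (Finset.mem_filter.mp hk).2), Finset.sum_const,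
          smul_eq_mul]
    _ ≤ ∑ j, D.d j := Finset.sum_le_sum_of_subset (Finset.filter_subset _ _)
    _ = n := h2

theorem Dec.card_J_le [CharZero K] {n : ℕ} {σ : G →* GL (Fin n) K} (D : Dec σ) :
    Fintype.card D.J ≤ n := by
  have h1 : ((∑ j, D.d j : ℕ) : K) = (n : K) := by
    have h2 := congrArg Matrix.trace D.sum_eq
    rw [Matrix.trace_sum, Matrix.trace_one, Fintype.card_fin] at h2
    rw [← h2, Nat.cast_sum]
    refine Finset.sum_congr rfl fun j _ => ?_
    rw [Matrix.trace_mul_comm, D.proj_iota, Matrix.trace_one, Fintype.card_fin]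
  have h2 : ∑ j, D.d j = n := Nat.cast_injective h1
  calc Fintype.card D.J = ∑ _j : D.J, 1 := by
        rw [← Finset.card_univ, Finset.card_eq_sum_ones]
    _ ≤ ∑ j, D.d j := Finset.sum_le_sum fun j _ => D.pos j
    _ = n := h2

/-- a block of a representation isomorphic to `σ` is isomorphic to a block of `σ` -/
theorem Dec.exists_block {n e : ℕ} {σ σ' : G →* GL (Fin n) K} (D : Dec σ) {A : GL (Fin n) K}
    (hA : ∀ x, σ' x = A * σ x * A⁻¹) {Z : G →* GL (Fin e) K} (he : 0 < e) (hZ : Spans Z)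
    {I : Matrix (Fin n) (Fin e) K} {P : Matrix (Fin e) (Fin n) K} (hPI : P * I = 1)
    (hI : ∀ x, (σ' x : Matrix (Fin n) (Fin n) K) * I = I * (Z x : Matrix (Fin e) (Fin e) K)) :
    ∃ k, D.d k = e ∧ ∀ x, (D.Y k x : Matrix (Fin (D.d k)) (Fin (D.d k)) K).trace =
      (Z x : Matrix (Fin e) (Fin e) K).trace := by
  classical
  let M : ∀ k, Matrix (Fin (D.d k)) (Fin e) K := fun k =>
    D.proj k * (((A⁻¹ : GL (Fin n) K) : Matrix (Fin n) (Fin n) K) * I)
  have hM : ∀ k x, (D.Y k x : Matrix (Fin (D.d k)) (Fin (D.d k)) K) * M k =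
      M k * (Z x : Matrix (Fin e) (Fin e) K) := by
    intro k x
    have h1 : (σ x : Matrix (Fin n) (Fin n) K) * ((A⁻¹ : GL (Fin n) K) : Matrix (Fin n) (Fin n) K) =
        ((A⁻¹ : GL (Fin n) K) : Matrix (Fin n) (Fin n) K) * (σ' x : Matrix (Fin n) (Fin n) K) := by
      rw [← Units.val_mul, ← Units.val_mul, hA]
      congr 1
      group
    calc (D.Y k x : Matrix (Fin (D.d k)) (Fin (D.d k)) K) * M k
        = D.proj k * (σ x : Matrix (Fin n) (Fin n) K) *
          (((A⁻¹ : GL (Fin n) K) : Matrix (Fin n) (Fin n) K) * I) := by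
          rw [D.comm_proj, Matrix.mul_assoc]
      _ = D.proj k * (((σ x : Matrix (Fin n) (Fin n) K) *
          ((A⁻¹ : GL (Fin n) K) : Matrix (Fin n) (Fin n) K)) * I) := by
          simp only [Matrix.mul_assoc]
      _ = D.proj k * ((((A⁻¹ : GL (Fin n) K) : Matrix (Fin n) (Fin n) K) *
          (σ' x : Matrix (Fin n) (Fin n) K)) * I) := by rw [h1]
      _ = D.proj k * (((A⁻¹ : GL (Fin n) K) : Matrix (Fin n) (Fin n) K) *
          ((σ' x : Matrix (Fin n) (Fin n) K) * I)) := by rw [Matrix.mul_assoc]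
      _ = M k * (Z x : Matrix (Fin e) (Fin e) K) := by
          rw [hI]
          simp only [M, Matrix.mul_assoc]
  obtain ⟨k, hk⟩ : ∃ k, M k ≠ 0 := by
    by_contra hcon
    push Not at hcon
    have h1 : ((A⁻¹ : GL (Fin n) K) : Matrix (Fin n) (Fin n) K) * I = 0 := by
      rw [← Matrix.one_mul (((A⁻¹ : GL (Fin n) K) : Matrix (Fin n) (Fin n) K) * I), ← D.sum_eq,
        Matrix.sum_mul]
      refine Finset.sum_eq_zero fun k _ => ?_
      rw [Matrix.mul_assoc]
      have h2 : D.proj k * (((A⁻¹ : GL (Fin n) K) : Matrix (Fin n) (Fin n) K) * I) = 0 := hcon k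
      rw [h2, Matrix.mul_zero]
    have h2 : I = 0 := by
      rw [← Matrix.one_mul I, ← Units.val_one, ← mul_inv_cancel A, Units.val_mul, Matrix.mul_assoc,
        h1, Matrix.mul_zero]
    rw [h2, Matrix.mul_zero] at hPI
    have : Nonempty (Fin e) := ⟨⟨0, he⟩⟩
    exact zero_ne_one hPI
  obtain ⟨h1, h2⟩ := trace_of_intertwine hZ (D.spans k) hk (hM k)
  exact ⟨k, h1.symm, fun x => (h2 x).symm⟩

end Run7.h427.CZ
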