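import Pool.Agent.Run7.h427.CZ.Tower

/-!
# Similitudes
-/

set_option autoImplicit false

namespace Run7.h427.CZ

open Matrix Topology Filter NumberField IsDedekindDomain Polynomial
open Run7.h427.CY
open Run7.h427.DS (Semis)
open Pool.Agent.W401.Cheb Pool.Agent.W528.Ord
open Run7.h427.PL (exists_frob_dens vanish isFrob_conj exists_iso)

variable {F : Type} [Field F] [NumberField F] {K : Type} [Field K] {n : ℕ} [IsAlgClosed K]

/-- `J⁻¹ B⁻ᵀ J` times the scalar `u` -/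
noncomputable def adj (J : GL (Fin n) K) (u : Kˣ) (B : GL (Fin n) K) : GL (Fin n) K :=
  sc n u * (J⁻¹ * (trp B)⁻¹ * J)
where
  /-- the transposed matrix -/
  trp (B : GL (Fin n) K) : GL (Fin n) K :=
    ⟨(B : Matrix (Fin n) (Fin n) K)ᵀ, ((B⁻¹ : GL (Fin n) K) : Matrix (Fin n) (Fin n) K)ᵀ, by
      rw [← Matrix.transpose_mul, ← Units.val_mul, inv_mul_cancel, Units.val_one,
        Matrix.transpose_one], by
      rw [← Matrix.transpose_mul, ← Units.val_mul, mul_inv_cancel, Units.val_one,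
        Matrix.transpose_one]⟩

omit [IsAlgClosed K] in
theorem trp_val (B : GL (Fin n) K) : (adj.trp B : Matrix (Fin n) (Fin n) K) =
    (B : Matrix (Fin n) (Fin n) K)ᵀ := rfl

omit [IsAlgClosed K] in
theorem trp_mul (A B : GL (Fin n) K) : adj.trp (A * B) = adj.trp B * adj.trp A := by
  apply Units.ext
  rw [trp_val, Units.val_mul, Units.val_mul, trp_val, trp_val, Matrix.transpose_mul]

omit [IsAlgClosed K] in
/-- similitudes in terms of `adj` -/
theorem adj_eq_iff (J : GL (Fin n) K) (u : Kˣ) (B : GL (Fin n) K) :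
    adj J u B = B ↔ (B : Matrix (Fin n) (Fin n) K)ᵀ * (J : Matrix (Fin n) (Fin n) K) *
      (B : Matrix (Fin n) (Fin n) K) = (u : K) • (J : Matrix (Fin n) (Fin n) K) := by
  have h0 : adj J u B = B ↔ adj.trp B * J * B = sc n u * J := by
    unfold adj
    constructor
    · intro h
      have h1 : adj.trp B * J * B = adj.trp B * J * (sc n u * (J⁻¹ * (adj.trp B)⁻¹ * J)) := by
        rw [h]
      rw [h1]
      have h2 : adj.trp B * J * (sc n u * (J⁻¹ * (adj.trp B)⁻¹ * J)) =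
          adj.trp B * J * sc n u * (J⁻¹ * (adj.trp B)⁻¹ * J) := by group
      rw [h2, ← sc_comm]
      group
    · intro h
      have h1 : B = (adj.trp B * J)⁻¹ * (adj.trp B * J * B) := by group
      rw [h] at h1
      rw [sc_comm] at h1 ⊢
      calc J⁻¹ * (adj.trp B)⁻¹ * J * sc n u = (adj.trp B * J)⁻¹ * (J * sc n u) := by group
        _ = B := h1.symm
  rw [h0]
  constructor
  · intro h
    have h1 := congrArg (fun A : GL (Fin n) K => (A : Matrix (Fin n) (Fin n) K)) h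
    simp only [Units.val_mul, trp_val] at h1
    rw [h1, ← Units.val_mul, sc_mul]
  · intro h
    apply Units.ext
    rw [Units.val_mul, Units.val_mul, trp_val, h, sc_mul]

omit [IsAlgClosed K] in
theorem adj_mul (J : GL (Fin n) K) (u w : Kˣ) (A B : GL (Fin n) K) :
    adj J (u * w) (A * B) = adj J u A * adj J w B := by
  unfold adj
  have h1 : sc n (u * w) = sc n u * sc n w := map_mul (Units.map _) u w
  rw [trp_mul, _root_.mul_inv_rev, h1]
  have h2 : (J⁻¹ * (adj.trp A)⁻¹ * J) * sc n w = sc n w * (J⁻¹ * (adj.trp A)⁻¹ * J) :=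
    (sc_comm w _).symm
  calc sc n u * sc n w * (J⁻¹ * ((adj.trp A)⁻¹ * (adj.trp B)⁻¹) * J)
      = sc n u * (sc n w * (J⁻¹ * (adj.trp A)⁻¹ * J)) * (J⁻¹ * (adj.trp B)⁻¹ * J) := by group
    _ = sc n u * ((J⁻¹ * (adj.trp A)⁻¹ * J) * sc n w) * (J⁻¹ * (adj.trp B)⁻¹ * J) := by rw [h2]
    _ = _ := by group

omit [IsAlgClosed K] in
theorem adj_one (J : GL (Fin n) K) : adj J 1 1 = 1 := by
  unfold adj
  have h1 : sc n (1 : Kˣ) = 1 := map_one (Units.map _)
  have h2 : adj.trp (1 : GL (Fin n) K) = 1 := by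
    apply Units.ext
    rw [trp_val, Units.val_one, Matrix.transpose_one]
  rw [h1, h2]
  group

omit [IsAlgClosed K] in
theorem adj_pow (J : GL (Fin n) K) (u : Kˣ) (B : GL (Fin n) K) (k : ℕ) :
    adj J (u ^ k) (B ^ k) = adj J u B ^ k := by
  induction k with
  | zero => rw [pow_zero, pow_zero, pow_zero, adj_one]
  | succ k ih => rw [pow_succ, pow_succ, pow_succ, adj_mul, ih]

/-- the eigenvalues of `adj` -/
theorem adj_roots (J : GL (Fin n) K) (u : Kˣ) (B : GL (Fin n) K) {x : K}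
    (hx : x ∈ (adj J u B : Matrix (Fin n) (Fin n) K).charpoly.roots) :
    ∃ y ∈ (B : Matrix (Fin n) (Fin n) K).charpoly.roots, x = u / y := by
  obtain ⟨w, hw0, hw⟩ := exists_eigen hx
  -- `B⁻ᵀ J w = (x / u) J w`
  have hJ : ((J : GL (Fin n) K) : Matrix (Fin n) (Fin n) K) *ᵥ w ≠ 0 := fun h0 =>
    hw0 (Matrix.eq_zero_of_mulVec_eq_zero ((Matrix.isUnit_iff_isUnit_det _).mp J.isUnit).ne_zero h0)
  have hu := u.ne_zero
  have h1 : (adj.trp B : Matrix (Fin n) (Fin n) K) *ᵥ (x • ((J : Matrix (Fin n) (Fin n) K) *ᵥ w)) =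
      (u : K) • ((J : Matrix (Fin n) (Fin n) K) *ᵥ w) := by
    rw [← Matrix.mulVec_smul, ← hw, Matrix.mulVec_mulVec, Matrix.mulVec_mulVec, ← Units.val_mul,
      ← Units.val_mul]
    have h2 : adj.trp B * J * adj J u B = sc n u * J := by
      unfold adj
      calc adj.trp B * J * (sc n u * (J⁻¹ * (adj.trp B)⁻¹ * J)) =
          adj.trp B * (J * sc n u) * (J⁻¹ * (adj.trp B)⁻¹ * J) := by group
        _ = adj.trp B * sc n u * (adj.trp B)⁻¹ * J := by rw [← sc_comm]; group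
        _ = sc n u * J := by rw [← sc_comm]; group
    rw [h2, sc_mul, Matrix.smul_mulVec]
  have hx0 : x ≠ 0 := by
    rintro rfl
    rw [zero_smul, Matrix.mulVec_zero] at h1
    rcases smul_eq_zero.mp h1.symm with h2 | h2
    · exact hu h2
    · exact hJ h2
  refine ⟨u / x, ?_, ?_⟩
  · rw [← Matrix.charpoly_transpose]
    apply mem_roots_of_eigen hJ
    rw [Matrix.toLin'_apply, ← trp_val, div_eq_inv_mul, mul_smul, ← h1, Matrix.mulVec_smul,
      smul_smul, inv_mul_cancel₀ hx0, one_smul]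
  · rw [div_div_cancel₀ hu]

variable [CharZero K] [TopologicalSpace K] [IsTopologicalRing K] [T2Space K]

/-- one step for forms -/
theorem form_step (hn : 0 < n) {τ : K ≃+* K} {p : ℕ} (hp : Good τ n p)
    {R : GK F →* GL (Fin n) K} (hc : Continuous fun x => (R x : Matrix (Fin n) (Fin n) K))
    {H H' : Subgroup (GK F)} (hH : IsOpen (H : Set (GK F))) (hle : H ≤ H')
    (hnorm : (H.subgroupOf H').Normal) (hidx : H.relIndex H' = p)
    {V : Set (HeightOneSpectrum (𝓞 F))} (hV : Tendsto (dens fun v => v ∉ V) atTop (𝓝 0))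
    {T : HeightOneSpectrum (𝓞 F) → K[X]} (hTn : ∀ v ∈ V, (T v).roots.card = n)
    (hTτ : ∀ v ∈ V, ∀ x ∈ (T v).roots, τ x ∈ (T v).roots)
    (hRt : ∀ v ∈ V, ∀ Q, Above v Q → ∀ m : ℕ, 0 < m → ∀ σ : GK F, FrobPow v Q m σ →
      (R σ : Matrix (Fin n) (Fin n) K).charpoly.roots = (T v).roots.map fun a => a ^ m)
    {J : GL (Fin n) K} {c : HeightOneSpectrum (𝓞 F) → K}
    (hc0 : ∀ v ∈ V, c v ≠ 0) (hcT : ∀ v ∈ V, ∀ x ∈ (T v).roots, c v / x ∈ (T v).roots)
    (hS : SimOn R (J : Matrix (Fin n) (Fin n) K) H)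
    (hA : SimAt R (J : Matrix (Fin n) (Fin n) K) H V c) :
    SimOn R (J : Matrix (Fin n) (Fin n) K) H' ∧ SimAt R (J : Matrix (Fin n) (Fin n) K) H' V c := by
  have hp0 : (p : K) ≠ 0 := Nat.cast_ne_zero.mpr hp.1.ne_zero
  have hne : Nonempty (Fin n) := ⟨⟨0, hn⟩⟩
  have hJdet : (J : Matrix (Fin n) (Fin n) K).det ≠ 0 :=
    ((Matrix.isUnit_iff_isUnit_det _).mp J.isUnit).ne_zero
  let q : GK F → Matrix (Fin n) (Fin n) K := fun g =>
    (R g : Matrix (Fin n) (Fin n) K)ᵀ * (J : Matrix (Fin n) (Fin n) K) *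
      (R g : Matrix (Fin n) (Fin n) K)
  have hqc : Continuous q := by
    have h1 : Continuous fun g => (R g : Matrix (Fin n) (Fin n) K)ᵀ := hc.matrix_transpose
    exact (h1.matrix_mul continuous_const).matrix_mul hc
  have hN : ∀ g ∈ H', ∀ h ∈ H, g * h * g⁻¹ ∈ H := fun g hg h hh =>
    hnorm.conj_mem ⟨h, hle hh⟩ hh ⟨g, hg⟩
  have hN' : ∀ g ∈ H', ∀ h ∈ H, g⁻¹ * h * g ∈ H := fun g hg h hh => by
    have h1 := hN g⁻¹ (H'.inv_mem hg) h hh
    rwa [inv_inv] at h1
  have hinv : ∀ g ∈ H', ∀ h ∈ H, q (g * h * g⁻¹) = q h := by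
    intro g hg h hh
    ext i j
    have h1 := vanish H hH (fun y => q (g * y * g⁻¹) i j - q y i j)
      (((hqc.comp ((continuous_const.mul continuous_subtype_val).mul continuous_const)).matrix_elem
        i j).sub ((hqc.comp continuous_subtype_val).matrix_elem i j)) _ hV (by
        intro v hv x hx hfr
        rw [not_not] at hv
        obtain ⟨Q, hQ, hfQ⟩ := isFrob_above hfr
        obtain ⟨Q', hQ', hfQ'⟩ := isFrob_above (isFrob_conj v x g hfr)
        have h2 : q x = _ := hA v hv Q hQ 1 one_pos x hx hfQ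
        have h3 : q (g * x * g⁻¹) = _ := hA v hv Q' hQ' 1 one_pos _ (hN g hg x hx) hfQ'
        change q (g * x * g⁻¹) i j - q x i j = 0
        rw [h2, h3, sub_self])
    exact sub_eq_zero.mp (h1 ⟨h, hh⟩)
  -- the similitude factors of the elements of `H`
  have hunit : ∀ h ∈ H, ∃ u : Kˣ, adj J u (R h) = R h := by
    intro h hh
    obtain ⟨d, hd⟩ := hS h hh
    have hd0 : d ≠ 0 := by
      rintro rfl
      rw [zero_smul] at hd
      have h1 := congrArg Matrix.det hd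
      have h2 : (R h : Matrix (Fin n) (Fin n) K).det ≠ 0 :=
        ((Matrix.isUnit_iff_isUnit_det _).mp (R h).isUnit).ne_zero
      rw [Matrix.det_mul, Matrix.det_mul, Matrix.det_transpose, Matrix.det_zero] at h1
      exact (mul_ne_zero (mul_ne_zero h2 hJdet) h2) h1
    exact ⟨Units.mk0 d hd0, (adj_eq_iff J _ _).mpr hd⟩
  have huniq : ∀ (h : GK F) (u u' : Kˣ), adj J u (R h) = R h → adj J u' (R h) = R h → u = u' := by
    intro h u u' h1 h2
    rw [adj_eq_iff] at h1 h2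
    rw [h1] at h2
    apply Units.ext
    by_contra hne'
    have h3 : ((u : K) - u') • (J : Matrix (Fin n) (Fin n) K) = 0 := by
      rw [sub_smul, h2, sub_self]
    rcases smul_eq_zero.mp h3 with h4 | h4
    · exact hne' (sub_eq_zero.mp h4)
    · exact J.ne_zero h4
  have key : SimAt R (J : Matrix (Fin n) (Fin n) K) H' V c := by
    intro v hv Q hQ m hm σ hσ hfr
    have hcm : c v ^ m ≠ 0 := pow_ne_zero m (hc0 v hv)
    let u : Kˣ := Units.mk0 (c v ^ m) hcm
    have hu : (u : K) = c v ^ m := rfl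
    rw [← hu]
    refine (adj_eq_iff J u (R σ)).mp ?_
    have hpw := pow_mem_of_relIndex hnorm hidx hσ
    have hroots := hRt v hv Q hQ m hm σ hfr
    have hM : ((T v).roots.map fun a => a ^ m).card ≤ n := by rw [Multiset.card_map, hTn v hv]
    have hMτ : ∀ x ∈ (T v).roots.map (fun a => a ^ m), τ x ∈ (T v).roots.map fun a => a ^ m := by
      intro y hy
      obtain ⟨a, ha, rfl⟩ := Multiset.mem_map.mp hy
      exact Multiset.mem_map.mpr ⟨τ a, hTτ v hv a ha, (map_pow τ a m).symm⟩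
    refine eq_of_small hp hp0 (S := {s | ∃ x ∈ H, s = R x}) (B := R σ) (B' := adj J u (R σ))
      ?_ ?_ ?_ ?_ ⟨σ ^ p, hpw, by rw [map_pow]⟩ ?_
    · intro x hx
      rw [hroots] at hx
      exact small_of_mem hM hMτ hx
    · intro x hx
      obtain ⟨y, hy, rfl⟩ := adj_roots J u (R σ) hx
      rw [hroots] at hy
      obtain ⟨a, ha, rfl⟩ := Multiset.mem_map.mp hy
      refine small_of_mem hM hMτ (Multiset.mem_map.mpr ⟨c v / a, hcT v hv a ha, ?_⟩)
      rw [div_pow, hu]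
    · rintro _ ⟨x, hx, rfl⟩
      exact ⟨σ⁻¹ * x * σ, hN' σ hσ x hx, by rw [map_mul, map_mul, map_inv]⟩
    · rintro _ ⟨x, hx, rfl⟩
      obtain ⟨w, hw⟩ := hunit x hx
      -- the factor of the conjugate is the same
      have h1 : adj J w (R (σ * x * σ⁻¹)) = R (σ * x * σ⁻¹) := by
        rw [adj_eq_iff] at hw ⊢
        have h2 := hinv σ hσ x hx
        change q (σ * x * σ⁻¹) = _
        rw [h2]
        exact hw
      have h2 : adj J u (R σ) * R x * (adj J u (R σ))⁻¹ =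
          adj J w (R (σ * x * σ⁻¹)) := by
        have h3 : adj J (u * w * u⁻¹) (R σ * R x * (R σ)⁻¹) =
            adj J u (R σ) * adj J w (R x) * adj J u⁻¹ (R σ)⁻¹ := by
          rw [adj_mul, adj_mul]
        have h4 : adj J u⁻¹ (R σ)⁻¹ = (adj J u (R σ))⁻¹ := by
          rw [eq_inv_iff_mul_eq_one, ← adj_mul, inv_mul_cancel, inv_mul_cancel, adj_one]
        have h5 : u * w * u⁻¹ = w := by rw [mul_comm u w, mul_inv_cancel_right]
        rw [h4, hw, h5] at h3
        rw [map_mul, map_mul, map_inv, h3]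
      rw [h2, h1, map_mul, map_mul, map_inv]
    · rw [← adj_pow, ← map_pow]
      have h1 := hA v hv Q hQ (m * p) (Nat.mul_pos hm hp.1.pos) (σ ^ p) hpw (hfr.pow hQ p)
      refine (adj_eq_iff J (u ^ p) (R (σ ^ p))).mpr ?_
      rw [h1, Units.val_pow_eq_pow_val, hu, pow_mul]
  refine ⟨?_, key⟩
  obtain ⟨v, hv, g, hg, hgH, hfr⟩ := exists_frob_sdiff hH hle hp.1 hidx hV
  rw [not_not] at hv
  let M : Subgroup (GK F) :=
    { carrier := {x | ∃ u : Kˣ, adj J u (R x) = R x}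
      one_mem' := ⟨1, by rw [map_one, adj_one]⟩
      mul_mem' := by
        rintro a b ⟨u, hu⟩ ⟨w, hw⟩
        exact ⟨u * w, by rw [map_mul, adj_mul, hu, hw]⟩
      inv_mem' := by
        rintro a ⟨u, hu⟩
        refine ⟨u⁻¹, ?_⟩
        have h4 : adj J u⁻¹ (R a)⁻¹ = (adj J u (R a))⁻¹ := by
          rw [eq_inv_iff_mul_eq_one, ← adj_mul, inv_mul_cancel, inv_mul_cancel, adj_one]
        rw [map_inv, h4, hu] }
  have h1 := le_of_prime (M := M) hle hnorm hp.1 hidx (fun x hx => hunit x hx) hg hgH (by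
    obtain ⟨Q, hQ, hfQ⟩ := isFrob_above hfr
    have h2 := key v hv Q hQ 1 one_pos g hg hfQ
    rw [pow_one] at h2
    exact ⟨Units.mk0 (c v) (hc0 v hv), (adj_eq_iff J _ _).mpr h2⟩)
  intro x hx
  obtain ⟨u, hu⟩ := h1 hx
  exact ⟨u, (adj_eq_iff J _ _).mp hu⟩

/-- **Forms descend through towers.** -/
theorem form_tower (hn : 0 < n) {R : GK F →* GL (Fin n) K}
    (hc : Continuous fun x => (R x : Matrix (Fin n) (Fin n) K))
    {V : Set (HeightOneSpectrum (𝓞 F))} (hV : Tendsto (dens fun v => v ∉ V) atTop (𝓝 0))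
    {T : HeightOneSpectrum (𝓞 F) → K[X]} (hTn : ∀ v ∈ V, (T v).roots.card = n)
    {𝒯 : Set (K ≃+* K)} (hTτ : ∀ τ ∈ 𝒯, ∀ v ∈ V, ∀ x ∈ (T v).roots, τ x ∈ (T v).roots)
    (hRt : ∀ v ∈ V, ∀ Q, Above v Q → ∀ m : ℕ, 0 < m → ∀ σ : GK F, FrobPow v Q m σ →
      (R σ : Matrix (Fin n) (Fin n) K).charpoly.roots = (T v).roots.map fun a => a ^ m)
    {J : GL (Fin n) K} {c : HeightOneSpectrum (𝓞 F) → K}
    (hc0 : ∀ v ∈ V, c v ≠ 0) (hcT : ∀ v ∈ V, ∀ x ∈ (T v).roots, c v / x ∈ (T v).roots)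
    {V' : Set (HeightOneSpectrum (𝓞 F))} {H : Subgroup (GK F)} (hT : Tower 𝒯 n V' H) :
    IsOpen (H : Set (GK F)) → SimOn R (J : Matrix (Fin n) (Fin n) K) H →
    SimAt R (J : Matrix (Fin n) (Fin n) K) H V c →
    SimOn R (J : Matrix (Fin n) (Fin n) K) ⊤ ∧ SimAt R (J : Matrix (Fin n) (Fin n) K) ⊤ V c := by
  induction hT with
  | top => exact fun _ h1 h2 => ⟨h1, h2⟩
  | step H H' p τ hτ hp _ hle hnorm hidx _ ih =>
    intro hH h1 h2
    obtain ⟨h3, h4⟩ := form_step hn hp hc hH hle hnorm hidx hV hTn (hTτ τ hτ) hRt hc0 hcT h1 h2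
    exact ih (Subgroup.isOpen_mono hle hH) h3 h4

end Run7.h427.CZ
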