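import Pool.Agent.Run7.h427.CZ.Exist
import Pool.Agent.Run7.h427.CY.Sim

/-!
# The canonical extension of a semisimple representation
-/

set_option autoImplicit false

namespace Run7.h427.CZ

open Module Polynomial Matrix
open Run7.h427.CY Run7.h427.DT
open Run7.h427.DS (Semis)
open Run7.h427.PL (charpoly_conj trace_conj exists_iso)

variable {K : Type} [Field K] {G : Type} [Group G]

/-- the image of a subspace under an automorphism of the field -/
def twSub {n : ℕ} (τ : K ≃+* K) (W : Submodule K (Fin n → K)) : Submodule K (Fin n → K) where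
  carrier := {v | (fun i => τ.symm (v i)) ∈ W}
  add_mem' := by
    intro a b ha hb
    have h1 : (fun i => τ.symm ((a + b) i)) = (fun i => τ.symm (a i)) + fun i => τ.symm (b i) := by
      funext i
      rw [Pi.add_apply, map_add, Pi.add_apply]
    change (fun i => τ.symm ((a + b) i)) ∈ W
    rw [h1]
    exact W.add_mem ha hb
  zero_mem' := by
    have h1 : (fun i : Fin n => τ.symm ((0 : Fin n → K) i)) = 0 := by
      funext i
      rw [Pi.zero_apply, map_zero]
    change (fun i : Fin n => τ.symm ((0 : Fin n → K) i)) ∈ W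
    rw [h1]
    exact W.zero_mem
  smul_mem' := by
    intro c v hv
    have h1 : (fun i => τ.symm ((c • v) i)) = τ.symm c • fun i => τ.symm (v i) := by
      funext i
      rw [Pi.smul_apply, smul_eq_mul, map_mul, Pi.smul_apply, smul_eq_mul]
    change (fun i => τ.symm ((c • v) i)) ∈ W
    rw [h1]
    exact W.smul_mem _ hv

theorem mulVec_map {n m : ℕ} (τ : K ≃+* K) (A : Matrix (Fin m) (Fin n) K) (v : Fin n → K) :
    (fun i => τ ((A *ᵥ v) i)) = A.map τ *ᵥ fun i => τ (v i) := by
  funext i
  simp only [Matrix.mulVec, dotProduct, Matrix.map_apply, map_sum, map_mul]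

/-- the image of a semisimple representation under an automorphism of the field -/
theorem semis_mp {n : ℕ} {σ : G →* GL (Fin n) K} (hσ : Semis σ) (τ : K ≃+* K) :
    Semis ((mp n τ).comp σ) := by
  intro W hW
  -- the image of `W` under the inverse
  have hmem : ∀ (W : Submodule K (Fin n → K)) (v : Fin n → K),
      v ∈ twSub τ.symm W ↔ (fun i => τ (v i)) ∈ W := fun W v => Iff.rfl
  have hmem' : ∀ (W : Submodule K (Fin n → K)) (v : Fin n → K),
      v ∈ twSub τ W ↔ (fun i => τ.symm (v i)) ∈ W := fun W v => Iff.rfl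
  have hss : ∀ v : Fin n → K, (fun i => τ (τ.symm (v i))) = v := fun v => by
    funext i
    exact τ.apply_symm_apply _
  have hss' : ∀ v : Fin n → K, (fun i => τ.symm (τ (v i))) = v := fun v => by
    funext i
    exact τ.symm_apply_apply _
  obtain ⟨C, hC, hWC⟩ := hσ (twSub τ.symm W) (by
    intro g w hw
    rw [hmem] at hw ⊢
    have h1 := hW g _ hw
    rw [MonoidHom.comp_apply, mp_apply, ← mulVec_map] at h1
    exact h1)
  refine ⟨twSub τ C, ?_, ?_⟩
  · intro g w hw
    rw [hmem'] at hw ⊢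
    have h1 := hC g _ hw
    have h2 : (((mp n τ).comp σ) g : Matrix (Fin n) (Fin n) K) *ᵥ w =
        fun i => τ (((σ g : Matrix (Fin n) (Fin n) K) *ᵥ fun i => τ.symm (w i)) i) := by
      rw [mulVec_map, hss, MonoidHom.comp_apply, mp_apply]
    rw [h2]
    have h3 := hss' ((σ g : Matrix (Fin n) (Fin n) K) *ᵥ fun i => τ.symm (w i))
    rw [h3]
    exact h1
  · constructor
    · rw [disjoint_iff, eq_bot_iff]
      rintro w ⟨h1, h2⟩
      have h3 : (fun i => τ.symm (w i)) ∈ twSub τ.symm W ⊓ C := by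
        refine ⟨?_, h2⟩
        rw [SetLike.mem_coe, hmem, hss]
        exact h1
      rw [hWC.disjoint.eq_bot, Submodule.mem_bot] at h3
      rw [Submodule.mem_bot, ← hss w]
      funext i
      have h4 : τ.symm (w i) = 0 := congrFun h3 i
      rw [h4, map_zero]
      rfl
    · rw [codisjoint_iff, eq_top_iff]
      intro w _
      obtain ⟨a, ha, c, hc, hac⟩ := Submodule.mem_sup.mp
        (show (fun i => τ.symm (w i)) ∈ twSub τ.symm W ⊔ C by
          rw [hWC.sup_eq_top]
          exact Submodule.mem_top)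
      refine Submodule.mem_sup.mpr ⟨fun i => τ (a i), ha, fun i => τ (c i), ?_, ?_⟩
      · rw [hmem', hss']
        exact hc
      · rw [← hss w]
        funext i
        have h4 : a i + c i = τ.symm (w i) := congrFun hac i
        rw [← h4, map_add]
        rfl

/-- **Orbits of blocks under an automorphism of the field** -/
theorem Dec.orbit_aut [CharZero K] {n : ℕ} {σ : G →* GL (Fin n) K} (hσ : Semis σ) (D : Dec σ)
    {τ : K ≃+* K} (hτ : ∀ x, τ (σ x : Matrix (Fin n) (Fin n) K).trace =
      (σ x : Matrix (Fin n) (Fin n) K).trace) (j : D.J) :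
    ∃ a : ℕ, 1 ≤ a ∧ a * D.d j ≤ n ∧ ∀ x, (τ ^ a)
      (D.Y j x : Matrix (Fin (D.d j)) (Fin (D.d j)) K).trace =
        (D.Y j x : Matrix (Fin (D.d j)) (Fin (D.d j)) K).trace := by
  classical
  obtain ⟨A, hA⟩ := exists_iso hσ (semis_mp hσ τ) (fun x => by
    rw [MonoidHom.comp_apply, trace_mp, hτ])
  have hstep : ∀ k : D.J, ∃ k' : D.J, D.d k' = D.d k ∧ ∀ x,
      (D.Y k' x : Matrix (Fin (D.d k')) (Fin (D.d k')) K).trace =
        τ (D.Y k x : Matrix (Fin (D.d k)) (Fin (D.d k)) K).trace := by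
    intro k
    have hsp : Spans ((mp (D.d k) τ).comp (D.Y k)) := by
      have h1 := D.spans k
      unfold Spans at h1 ⊢
      rw [eq_top_iff]
      intro B _
      have hB : B.map τ.symm ∈ Submodule.span K (Set.range fun g =>
          (D.Y k g : Matrix (Fin (D.d k)) (Fin (D.d k)) K)) := by
        rw [h1]
        exact Submodule.mem_top
      have hall : ∀ X ∈ Submodule.span K (Set.range fun g =>
          (D.Y k g : Matrix (Fin (D.d k)) (Fin (D.d k)) K)), X.map τ ∈
          Submodule.span K (Set.range fun g => (((mp (D.d k) τ).comp (D.Y k)) g :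
            Matrix (Fin (D.d k)) (Fin (D.d k)) K)) := by
        intro X hX
        induction hX using Submodule.span_induction with
        | mem x hx =>
          obtain ⟨g, rfl⟩ := hx
          exact Submodule.subset_span ⟨g, rfl⟩
        | zero =>
          rw [Matrix.map_zero _ (map_zero τ)]
          exact Submodule.zero_mem _
        | add x y _ _ hx hy =>
          rw [Matrix.map_add _ (map_add τ)]
          exact Submodule.add_mem _ hx hy
        | smul c x _ hx =>
          have h2 : (c • x).map τ = τ c • x.map τ := by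
            ext i j
            simp
          rw [h2]
          exact Submodule.smul_mem _ _ hx
      have h2 := hall _ hB
      have h3 : (B.map τ.symm).map τ = B := by
        ext i j
        simp
      rwa [h3] at h2
    obtain ⟨k', h1, h2⟩ := D.exists_block hA (D.pos k) hsp
      (I := (D.iota k).map τ) (P := (D.proj k).map τ) (by
        have h3 : (D.proj k * D.iota k).map (τ : K →+* K) =
            (1 : Matrix (Fin (D.d k)) (Fin (D.d k)) K).map (τ : K →+* K) :=
          congrArg (fun X : Matrix (Fin (D.d k)) (Fin (D.d k)) K => X.map (τ : K →+* K))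
            (D.proj_iota k)
        rw [Matrix.map_mul, Matrix.map_one _ (map_zero _) (map_one _)] at h3
        exact h3) (fun x => by
        have h3 : ((σ x : Matrix (Fin n) (Fin n) K) * D.iota k).map (τ : K →+* K) =
            (D.iota k * (D.Y k x : Matrix (Fin (D.d k)) (Fin (D.d k)) K)).map (τ : K →+* K) :=
          congrArg (fun X : Matrix (Fin n) (Fin (D.d k)) K => X.map (τ : K →+* K))
            (D.comm_iota k x)
        rw [Matrix.map_mul, Matrix.map_mul] at h3
        exact h3)
    exact ⟨k', h1, fun x => by rw [h2, MonoidHom.comp_apply, trace_mp]⟩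
  have hiter : ∀ i : ℕ, ∃ k' : D.J, D.d k' = D.d j ∧ ∀ x,
      (D.Y k' x : Matrix (Fin (D.d k')) (Fin (D.d k')) K).trace =
        (τ ^ i) (D.Y j x : Matrix (Fin (D.d j)) (Fin (D.d j)) K).trace := by
    intro i
    induction i with
    | zero => exact ⟨j, rfl, fun x => rfl⟩
    | succ i ih =>
      obtain ⟨k, h1, h2⟩ := ih
      obtain ⟨k', h3, h4⟩ := hstep k
      exact ⟨k', h3.trans h1, fun x => by rw [h4, h2, pow_succ', RingAut.mul_apply]⟩
  choose f hf1 hf2 using hiter
  have hcard := D.card_le (D.d j)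
  set m := (Finset.univ.filter fun k => D.d k = D.d j).card with hm
  obtain ⟨i, hi, i', hi', hii', h⟩ := Finset.exists_ne_map_eq_of_card_lt_of_maps_to
    (s := Finset.range (m + 1)) (t := Finset.univ.filter fun k => D.d k = D.d j) (f := f) (by
      rw [Finset.card_range]
      omega) (fun i _ => by
      rw [Finset.mem_coe, Finset.mem_filter]
      exact ⟨Finset.mem_univ _, hf1 i⟩)
  have key : ∀ i i' : ℕ, i < i' → i' < m + 1 → f i = f i' →
      ∃ a : ℕ, 1 ≤ a ∧ a * D.d j ≤ n ∧ ∀ x, (τ ^ a)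
        (D.Y j x : Matrix (Fin (D.d j)) (Fin (D.d j)) K).trace =
          (D.Y j x : Matrix (Fin (D.d j)) (Fin (D.d j)) K).trace := by
    intro i i' hii' hi' h
    refine ⟨i' - i, by omega, (Nat.mul_le_mul_right _ (by omega)).trans hcard, fun x => ?_⟩
    have h1 := hf2 i x
    have h2 := hf2 i' x
    rw [← h, h1] at h2
    have h3 : τ ^ i' = τ ^ i * τ ^ (i' - i) := by
      rw [← pow_add]
      congr 1
      omega
    rw [h3, RingAut.mul_apply] at h2
    exact ((τ ^ i).injective h2).symm
  rw [Finset.mem_range] at hi hi'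
  rcases lt_or_gt_of_ne hii' with h1 | h1
  · exact key i i' h1 hi' h
  · exact key i' i h1 hi h.symm

/-- **Blocks are invariant under conjugation by an element of small prime order modulo `N`.** -/
theorem Dec.orbit_conj [CharZero K] {n : ℕ} {N : Subgroup G} [hNn : N.Normal]
    {σ : N →* GL (Fin n) K} (hσ : Semis σ) (D : Dec σ) {p : ℕ} (hp : p.Prime) (hnp : n < p) {g : G}
    (ht : ∀ (x : G) (hx : x ∈ N), (σ ⟨g * x * g⁻¹, hNn.conj_mem x hx g⟩ :
      Matrix (Fin n) (Fin n) K).trace = (σ ⟨x, hx⟩ : Matrix (Fin n) (Fin n) K).trace)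
    (hgp : g ^ p ∈ N) (j : D.J) : ∀ (x : G) (hx : x ∈ N),
      (D.Y j ⟨g * x * g⁻¹, hNn.conj_mem x hx g⟩ :
        Matrix (Fin (D.d j)) (Fin (D.d j)) K).trace =
        (D.Y j ⟨x, hx⟩ : Matrix (Fin (D.d j)) (Fin (D.d j)) K).trace := by
  classical
  let c : G → N ≃* N := fun γ => MulAut.conjNormal γ
  have hcv : ∀ (γ : G) (y : N), c γ y = ⟨γ * y * γ⁻¹, hNn.conj_mem y y.2 γ⟩ := by
    intro γ y
    apply Subtype.ext
    exact MulAut.conjNormal_apply γ y
  let cg : N →* N := (c g).toMonoidHom
  have hcg : ∀ y : N, cg y = ⟨g * y * g⁻¹, hNn.conj_mem y y.2 g⟩ := hcv g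
  have hsurj : Function.Surjective cg := (c g).surjective
  have hσ' : Semis (σ.comp cg) := Run7.h427.PL.semis_comp hσ cg (by
    rw [MonoidHom.range_eq_top.mpr hsurj]
    infer_instance)
  obtain ⟨A, hA⟩ := exists_iso hσ hσ' (fun x => by
    rw [MonoidHom.comp_apply, hcg]
    exact (ht x x.2).symm)
  have hstep : ∀ k : D.J, ∃ k' : D.J, D.d k' = D.d k ∧ ∀ x,
      (D.Y k' x : Matrix (Fin (D.d k')) (Fin (D.d k')) K).trace =
        (D.Y k (cg x) : Matrix (Fin (D.d k)) (Fin (D.d k)) K).trace := by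
    intro k
    have hsp : Spans ((D.Y k).comp cg) := by
      have h1 := D.spans k
      unfold Spans at h1 ⊢
      rw [← h1]
      congr 1
      ext B
      constructor
      · rintro ⟨x, rfl⟩
        exact ⟨cg x, rfl⟩
      · rintro ⟨x, rfl⟩
        obtain ⟨y, rfl⟩ := hsurj x
        exact ⟨y, rfl⟩
    obtain ⟨k', h1, h2⟩ := D.exists_block hA (D.pos k) hsp (D.proj_iota k)
      (fun x => D.comm_iota k (cg x))
    exact ⟨k', h1, fun x => h2 x⟩
  -- the stabiliser of the trace of the block
  let t : N → K := fun y => (D.Y j y : Matrix (Fin (D.d j)) (Fin (D.d j)) K).trace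
  let S : Subgroup G :=
    { carrier := {γ | ∀ y : N, t (c γ y) = t y}
      one_mem' := by
        intro y
        have h1 : c 1 y = y := by
          rw [hcv]
          apply Subtype.ext
          change 1 * (y : G) * 1⁻¹ = y
          group
        rw [h1]
      mul_mem' := by
        intro a b ha hb y
        have h1 : c (a * b) y = c a (c b y) := by
          rw [hcv, hcv, hcv]
          apply Subtype.ext
          change a * b * (y : G) * (a * b)⁻¹ = a * (b * y * b⁻¹) * a⁻¹
          group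
        rw [h1, ha, hb]
      inv_mem' := by
        intro a ha y
        have h1 := ha (c a⁻¹ y)
        have h2 : c a (c a⁻¹ y) = y := by
          rw [hcv, hcv]
          apply Subtype.ext
          change a * (a⁻¹ * (y : G) * a⁻¹⁻¹) * a⁻¹ = y
          group
        rw [h2] at h1
        exact h1.symm }
  have hgS : g ^ p ∈ S := by
    intro y
    have h1 : c (g ^ p) y = ⟨g ^ p, hgp⟩ * y * ⟨g ^ p, hgp⟩⁻¹ := by
      rw [hcv]
      rfl
    change (D.Y j (c (g ^ p) y) : Matrix (Fin (D.d j)) (Fin (D.d j)) K).trace = _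
    rw [h1, map_mul, map_mul, map_inv, Run7.h427.PL.trace_conj]
  have hiter : ∀ i : ℕ, ∃ k' : D.J, ∀ y : N,
      (D.Y k' y : Matrix (Fin (D.d k')) (Fin (D.d k')) K).trace = t (c (g ^ i) y) := by
    intro i
    induction i with
    | zero =>
      refine ⟨j, fun y => ?_⟩
      have h1 : c (g ^ 0) y = y := by
        rw [hcv]
        apply Subtype.ext
        change g ^ 0 * (y : G) * (g ^ 0)⁻¹ = y
        group
      rw [h1]
    | succ i ih =>
      obtain ⟨k, h2⟩ := ih
      obtain ⟨k', -, h4⟩ := hstep k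
      refine ⟨k', fun y => ?_⟩
      have h1 : c (g ^ (i + 1)) y = c (g ^ i) (cg y) := by
        rw [hcv, hcv, hcg]
        apply Subtype.ext
        change g ^ (i + 1) * (y : G) * (g ^ (i + 1))⁻¹ = g ^ i * (g * y * g⁻¹) * (g ^ i)⁻¹
        rw [pow_succ]
        group
      rw [h4, h2, h1]
  choose f hf using hiter
  obtain ⟨i, hi, i', hi', hii', h⟩ := Finset.exists_ne_map_eq_of_card_lt_of_maps_to
    (s := Finset.range p) (t := (Finset.univ : Finset D.J)) (f := f) (by
      rw [Finset.card_range, Finset.card_univ]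
      exact D.card_J_le.trans_lt hnp) (fun i _ => by
      rw [Finset.mem_coe]
      exact Finset.mem_univ _)
  have key : ∀ i i' : ℕ, i < i' → i' < p → f i = f i' → ∃ b : ℕ, 1 ≤ b ∧ b < p ∧ g ^ b ∈ S := by
    intro i i' hii' hi' h
    refine ⟨i' - i, by omega, by omega, fun y => ?_⟩
    obtain ⟨y', rfl⟩ := (c (g ^ i)).surjective y
    have h1 := hf i y'
    have h2 := hf i' y'
    rw [← h, h1] at h2
    have h3 : c (g ^ i') y' = c (g ^ (i' - i)) (c (g ^ i) y') := by
      rw [hcv, hcv, hcv]
      apply Subtype.ext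
      change g ^ i' * (y' : G) * (g ^ i')⁻¹ = g ^ (i' - i) * (g ^ i * y' * (g ^ i)⁻¹) *
        (g ^ (i' - i))⁻¹
      have h4 : g ^ i' = g ^ (i' - i) * g ^ i := by
        rw [← pow_add]
        congr 1
        omega
      rw [h4]
      group
    rw [h3] at h2
    exact h2.symm
  obtain ⟨b, hb1, hbp, hb⟩ : ∃ b : ℕ, 1 ≤ b ∧ b < p ∧ g ^ b ∈ S := by
    rw [Finset.mem_range] at hi hi'
    rcases lt_or_gt_of_ne hii' with h1 | h1
    · exact key i i' h1 hi' h
    · exact key i' i h1 hi h.symm
  have hgS' : g ∈ S := by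
    have hcop : Nat.Coprime b p := by
      rw [Nat.coprime_comm, Nat.Prime.coprime_iff_not_dvd hp]
      intro hdvd
      exact absurd (Nat.le_of_dvd hb1 hdvd) (by omega)
    have h1 : (1 : ℤ) = b * Nat.gcdA b p + p * Nat.gcdB b p := by
      rw [← Nat.gcd_eq_gcd_ab, hcop.gcd_eq_one]
      rfl
    have h2 : g = (g ^ b) ^ (Nat.gcdA b p) * (g ^ p) ^ (Nat.gcdB b p) := by
      rw [← zpow_natCast, ← zpow_natCast, ← _root_.zpow_mul, ← _root_.zpow_mul, ← _root_.zpow_add,
        ← h1, zpow_one]
    rw [h2]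
    exact S.mul_mem (S.zpow_mem hb _) (S.zpow_mem hgS _)
  intro x hx
  have h1 := hgS' ⟨x, hx⟩
  rw [hcv] at h1
  exact h1

/-- **Existence of the canonical extension**: a semisimple representation with the right invariance
properties extends to one all of whose eigenvalues are small. -/
theorem exist_small [IsAlgClosed K] [CharZero K] {n : ℕ} {N : Subgroup G} [hNn : N.Normal]
    {σ : N →* GL (Fin n) K} (hσ : Semis σ) {τ : K ≃+* K} {p : ℕ} (hp : Good τ n p)
    (hidx : N.index = p) {g : G} (hg : g ∉ N)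
    (ht : ∀ (x : G) (hx : x ∈ N), (σ ⟨g * x * g⁻¹, hNn.conj_mem x hx g⟩ :
      Matrix (Fin n) (Fin n) K).trace = (σ ⟨x, hx⟩ : Matrix (Fin n) (Fin n) K).trace)
    (hτ : ∀ x : N, τ (σ x : Matrix (Fin n) (Fin n) K).trace =
      (σ x : Matrix (Fin n) (Fin n) K).trace)
    (hgp : g ^ p ∈ N) :
    ∃ R : G →* GL (Fin n) K, (∀ (x : G) (hx : x ∈ N), R x = σ ⟨x, hx⟩) ∧
      ∀ x, SmallEig τ n (R x : Matrix (Fin n) (Fin n) K) := by
  classical
  obtain ⟨D⟩ := exists_dec n σ hσ
  have hnp : n < p := Good.lt hp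
  have hblock : ∀ j : D.J, ∃ R : G →* GL (Fin (D.d j)) K,
      (∀ (x : G) (hx : x ∈ N), R x = D.Y j ⟨x, hx⟩) ∧
        ∀ x, SmallEig τ n (R x : Matrix (Fin (D.d j)) (Fin (D.d j)) K) := by
    intro j
    obtain ⟨a, ha1, han, ha⟩ := D.orbit_aut hσ hτ j
    obtain ⟨R, hR1, hR2⟩ := step_small (D.pos j) (D.spans j) (Good.pow hp ha1 han) hidx hg
      (D.orbit_conj hσ hp.1 hnp ht hgp j) ha hgp
    refine ⟨R, hR1, fun x z hz => ?_⟩
    refine Small.of_pow ha1 han (small_of_mem (A := (R x : Matrix (Fin (D.d j)) (Fin (D.d j))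
      K).charpoly.roots) ?_ (fun y hy => stable_roots (hR2 x) y hy) hz)
    refine (Polynomial.card_roots' _).trans ?_
    rw [Matrix.charpoly_natDegree_eq_dim, Fintype.card_fin]
  choose r hr1 hr2 using hblock
  let M : G → Matrix (Fin n) (Fin n) K := fun x =>
    ∑ j, D.iota j * (r j x : Matrix (Fin (D.d j)) (Fin (D.d j)) K) * D.proj j
  have hM1 : M 1 = 1 := by
    change ∑ j, D.iota j * (r j 1 : Matrix (Fin (D.d j)) (Fin (D.d j)) K) * D.proj j = 1
    rw [← D.sum_eq]
    refine Finset.sum_congr rfl fun j _ => ?_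
    rw [map_one, Units.val_one, Matrix.mul_one]
  have hproj : ∀ k x, D.proj k * M x =
      (r k x : Matrix (Fin (D.d k)) (Fin (D.d k)) K) * D.proj k := by
    intro k x
    change D.proj k * ∑ j, D.iota j * (r j x : Matrix (Fin (D.d j)) (Fin (D.d j)) K) * D.proj j = _
    rw [Matrix.mul_sum, Finset.sum_eq_single k]
    · rw [← Matrix.mul_assoc, ← Matrix.mul_assoc, D.proj_iota, Matrix.one_mul]
    · intro j _ hjk
      rw [← Matrix.mul_assoc, ← Matrix.mul_assoc, D.proj_iota' k j (Ne.symm hjk), Matrix.zero_mul,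
        Matrix.zero_mul]
    · intro h
      exact absurd (Finset.mem_univ k) h
  have hMm : ∀ x y, M (x * y) = M x * M y := by
    intro x y
    change ∑ j, D.iota j * (r j (x * y) : Matrix (Fin (D.d j)) (Fin (D.d j)) K) * D.proj j =
      (∑ j, D.iota j * (r j x : Matrix (Fin (D.d j)) (Fin (D.d j)) K) * D.proj j) * M y
    rw [Matrix.sum_mul]
    refine Finset.sum_congr rfl fun j _ => ?_
    rw [map_mul, Units.val_mul, Matrix.mul_assoc _ (D.proj j), hproj]
    simp only [Matrix.mul_assoc]
  let R0 : G →* Matrix (Fin n) (Fin n) K := ⟨⟨M, hM1⟩, hMm⟩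
  let R : G →* GL (Fin n) K := R0.toHomUnits
  have hR : ∀ x, (R x : Matrix (Fin n) (Fin n) K) = M x := fun x => rfl
  refine ⟨R, fun x hx => ?_, fun x z hz => ?_⟩
  · apply Units.ext
    rw [hR]
    change ∑ j, D.iota j * (r j x : Matrix (Fin (D.d j)) (Fin (D.d j)) K) * D.proj j = _
    rw [← Matrix.mul_one (σ ⟨x, hx⟩ : Matrix (Fin n) (Fin n) K), ← D.sum_eq, Matrix.mul_sum]
    refine Finset.sum_congr rfl fun j _ => ?_
    rw [hr1 j x hx, ← D.comm_iota, Matrix.mul_assoc]
  · obtain ⟨w, hw0, hw⟩ := exists_eigen hz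
    obtain ⟨k, hk⟩ : ∃ k, D.proj k *ᵥ w ≠ 0 := by
      by_contra hcon
      push Not at hcon
      apply hw0
      rw [← Matrix.one_mulVec w, ← D.sum_eq, Matrix.sum_mulVec]
      refine Finset.sum_eq_zero fun k _ => ?_
      rw [← Matrix.mulVec_mulVec, hcon k, Matrix.mulVec_zero]
    refine hr2 k x z ?_
    apply mem_roots_of_eigen hk
    rw [Matrix.toLin'_apply, Matrix.mulVec_mulVec, ← hproj, ← Matrix.mulVec_mulVec, ← hR, hw,
      Matrix.mulVec_smul]

end Run7.h427.CZ
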