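import Pool.Agent.Run7.h427.CZ.Form
import Pool.Agent.Run7.h427.CY.Padic

/-!
# Descent of semisimple representations over extensions of `ℚ_ℓ`
-/

set_option autoImplicit false

namespace Run7.h427.CZ

open Matrix Topology Filter NumberField IsDedekindDomain Polynomial
open Run7.h427.CY
open Run7.h427.DS (Semis)
open Pool.Agent.W401.Cheb Pool.Agent.W528.Ord
open Run7.h427.PL (exists_frob_dens vanish isFrob_conj exists_iso)

variable {ℓ : ℕ} [Fact ℓ.Prime]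

/-- the continuous automorphisms over `L` -/
def Aut (L : IntermediateField ℚ_[ℓ] (PadicAlgCl ℓ)) : Set (PadicAlgCl ℓ ≃+* PadicAlgCl ℓ) :=
  {τ | Continuous τ ∧ ∀ x ∈ L, τ x = x}

theorem map_aut {L : IntermediateField ℚ_[ℓ] (PadicAlgCl ℓ)} {τ : PadicAlgCl ℓ ≃+* PadicAlgCl ℓ}
    (hτ : τ ∈ Aut L) {P : (PadicAlgCl ℓ)[X]} (h : ∀ i, P.coeff i ∈ L) :
    P.map (τ : PadicAlgCl ℓ →+* PadicAlgCl ℓ) = P := by
  ext i
  rw [coeff_map, RingHom.coe_coe, hτ.2 _ (h i)]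

/-- a polynomial is defined over `L` if it is stable under the automorphisms over `L` -/
theorem coeff_mem_of_stable {L : IntermediateField ℚ_[ℓ] (PadicAlgCl ℓ)} {P : (PadicAlgCl ℓ)[X]}
    (h : ∀ τ ∈ Aut L, P.map (τ : PadicAlgCl ℓ →+* PadicAlgCl ℓ) = P) (i : ℕ) : P.coeff i ∈ L := by
  apply mem_of_fixed L
  intro γ
  have h1 := h γ.toRingEquiv ⟨continuous_aut' L γ, fun x hx => γ.commutes ⟨x, hx⟩⟩
  have h2 := congrArg (fun P : (PadicAlgCl ℓ)[X] => P.coeff i) h1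
  simp only [coeff_map] at h2
  exact h2

variable {F : Type} [Field F] [NumberField F] {n : ℕ}

/-- a tower of good degrees for `m` is one for `n ≤ m` -/
theorem tower_mono {𝒯 : Set (PadicAlgCl ℓ ≃+* PadicAlgCl ℓ)} {m n : ℕ} (h : n ≤ m)
    {V : Set (HeightOneSpectrum (𝓞 F))} {H : Subgroup (GK F)} (hT : Tower 𝒯 m V H) :
    Tower 𝒯 n V H := by
  induction hT with
  | top => exact Tower.top
  | step H H' p τ hτ hp _ hle hn hi hor ih =>
    exact Tower.step H H' p τ hτ ⟨hp.1, fun ζ hζ i hi hin => hp.2 ζ hζ i hi (hin.trans h)⟩ ih hle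
      hn hi hor

/-- **Descent over the algebraic closure of `ℚ_ℓ`**, for semisimple representations. -/
theorem descent_full (hn : 0 < n) (L : IntermediateField ℚ_[ℓ] (PadicAlgCl ℓ))
    {T : HeightOneSpectrum (𝓞 F) → (PadicAlgCl ℓ)[X]} {V : Set (HeightOneSpectrum (𝓞 F))}
    (hV : Tendsto (dens fun v => v ∉ V) atTop (𝓝 0))
    (hT1 : ∀ v ∈ V, (T v).Monic) (hTn : ∀ v ∈ V, (T v).natDegree = n)
    (hTL : ∀ v ∈ V, ∀ i, (T v).coeff i ∈ L)
    {H : Subgroup (GK F)} (hT : Tower (Aut L) n Set.univ H) (hH : IsOpen (H : Set (GK F)))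
    {ρ : H →* GL (Fin n) (PadicAlgCl ℓ)}
    (hc : Continuous fun x => (ρ x : Matrix (Fin n) (Fin n) (PadicAlgCl ℓ))) (hss : Semis ρ)
    (hr : ∀ v ∈ V, Right T H ρ v) :
    ∃ R : GK F →* GL (Fin n) (PadicAlgCl ℓ),
      Continuous (fun x => (R x : Matrix (Fin n) (Fin n) (PadicAlgCl ℓ))) ∧
      (∀ (x : GK F) (hx : x ∈ H), R x = ρ ⟨x, hx⟩) ∧ Semis R ∧
      (∀ v ∈ V, ∀ Q, Above v Q → ∀ m : ℕ, 0 < m → ∀ σ : GK F, FrobPow v Q m σ →
        (R σ : Matrix (Fin n) (Fin n) (PadicAlgCl ℓ)).charpoly.roots =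
          (T v).roots.map fun a => a ^ m) ∧
      (∀ v ∈ V, Unr H ρ v → ∀ Q, Above v Q → ∀ σ : GK F, FrobPow v Q 0 σ → R σ = 1) ∧
      (∀ x, ∀ i, (R x : Matrix (Fin n) (Fin n) (PadicAlgCl ℓ)).charpoly.coeff i ∈ L) ∧
      (∀ R' : GK F →* GL (Fin n) (PadicAlgCl ℓ), (∀ (x : GK F) (hx : x ∈ H), R' x = ρ ⟨x, hx⟩) →
        (∀ v ∈ V, ∀ σ : GK F, IsFrob v σ →
          (R' σ : Matrix (Fin n) (Fin n) (PadicAlgCl ℓ)).charpoly = T v) → R' = R) ∧
      (∀ X : Matrix (Fin n) (Fin n) (PadicAlgCl ℓ),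
        (∀ x, (ρ x : Matrix (Fin n) (Fin n) (PadicAlgCl ℓ)) * X = X * ρ x) →
          ∀ x, (R x : Matrix (Fin n) (Fin n) (PadicAlgCl ℓ)) * X = X * R x) ∧
      (∀ M : IntermediateField ℚ_[ℓ] (PadicAlgCl ℓ), L ≤ M →
        (∀ x i j, (ρ x : Matrix (Fin n) (Fin n) (PadicAlgCl ℓ)) i j ∈ M) →
        ∀ x i j, (R x : Matrix (Fin n) (Fin n) (PadicAlgCl ℓ)) i j ∈ M) := by
  classical
  let T' : HeightOneSpectrum (𝓞 F) → (PadicAlgCl ℓ)[X] := fun v => if v ∈ V then T v else X ^ n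
  have hTV : ∀ v ∈ V, T' v = T v := fun v hv => if_pos hv
  have hTV' : ∀ v, v ∉ V → T' v = X ^ n := fun v hv => if_neg hv
  have hT1' : ∀ v, (T' v).Monic := by
    intro v
    by_cases hv : v ∈ V
    · rw [hTV v hv]
      exact hT1 v hv
    · rw [hTV' v hv]
      exact monic_X_pow n
  have hTn' : ∀ v, (T' v).natDegree = n := by
    intro v
    by_cases hv : v ∈ V
    · rw [hTV v hv, hTn v hv]
    · rw [hTV' v hv, natDegree_X_pow]
  have hTτ : ∀ τ ∈ Aut L, ∀ v, (T' v).map (τ : PadicAlgCl ℓ →+* PadicAlgCl ℓ) = T' v := by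
    intro τ hτ v
    by_cases hv : v ∈ V
    · rw [hTV v hv]
      exact map_aut hτ (hTL v hv)
    · rw [hTV' v hv, Polynomial.map_pow, map_X]
  have hRt : ∀ v ∈ V, Right T' H ρ v := by
    intro v hv Q hQ m hm σ h hfr
    rw [hTV v hv]
    exact hr v hv Q hQ m hm σ h hfr
  have hB : Tendsto (dens fun v => ¬ Right T' H ρ v) atTop (𝓝 0) :=
    squeeze_zero (fun N => dens_nonneg _ N)
      (fun N => dens_mono (fun v hv hvV => hv (hRt v hvV)) N) hV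
  obtain ⟨R, h1, h2, h3, h4, h5⟩ := descent_ss hn (fun τ hτ => hτ.1) hT1' hTn' hTτ hT hH ρ hc hss hB
  have hch : ∀ v, ¬ v ∉ V → ∀ σ : GK F, IsFrob v σ →
      (R σ : Matrix (Fin n) (Fin n) (PadicAlgCl ℓ)).charpoly = T' v := fun v hv σ hσ =>
    charpoly_of_right hT1' (h4 v (hRt v (not_not.mp hv))) hσ
  have huniq : ∀ R' : GK F →* GL (Fin n) (PadicAlgCl ℓ),
      (∀ (x : GK F) (hx : x ∈ H), R' x = ρ ⟨x, hx⟩) →
      (∀ v ∈ V, ∀ σ : GK F, IsFrob v σ →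
        (R' σ : Matrix (Fin n) (Fin n) (PadicAlgCl ℓ)).charpoly = T v) → R' = R := by
    intro R' hR' hR'v
    ext1 x
    exact tower_small hTn' hTτ hV hch (fun v hv σ hσ => by
      rw [hTV v (not_not.mp hv)]
      exact hR'v v (not_not.mp hv) σ hσ) hT hH (fun x hx => by rw [hR' x hx, h2 x hx]) x
  refine ⟨R, h1, h2, h3, ?_, fun v hv hu => h5 v (hRt v hv) hu, ?_, huniq, ?_, ?_⟩
  · intro v hv Q hQ m hm σ hσ
    have h6 := h4 v (hRt v hv) Q hQ m hm σ (Subgroup.mem_top σ) hσ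
    rw [hTV v hv] at h6
    exact h6
  · intro x
    exact coeff_mem_of_stable fun τ hτ => stable_all hn hτ.1 (hTτ τ hτ) hV h1 h3 hch x
  · intro X hX
    exact tower_comm hTn' hTτ hV hch hT hH fun x hx => by
      rw [h2 x hx]
      exact hX ⟨x, hx⟩
  · intro M hLM hM x i j
    apply mem_of_fixed M
    intro γ
    have hγ : γ.toRingEquiv ∈ Aut L :=
      ⟨continuous_aut' M γ, fun y hy => γ.commutes ⟨y, hLM hy⟩⟩
    have h6 := huniq ((mp n γ.toRingEquiv).comp R) (fun y hy => by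
      rw [MonoidHom.comp_apply, h2 y hy]
      apply Units.ext
      rw [mp_apply]
      ext i j
      exact γ.commutes ⟨_, hM ⟨y, hy⟩ i j⟩) (fun v hv σ hσ => by
      rw [MonoidHom.comp_apply, charpoly_mp, hch v (not_not.mpr hv) σ hσ, hTτ _ hγ, hTV v hv])
    have h7 := DFunLike.congr_fun h6 x
    have h8 := congrArg (fun A : GL (Fin n) (PadicAlgCl ℓ) =>
      (A : Matrix (Fin n) (Fin n) (PadicAlgCl ℓ)) i j) h7
    exact h8

/-- the class of a Frobenius element is determined by the classes of its powers in `H` -/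
theorem class_of_pow {K : Type} [Field K] [IsAlgClosed K] [CharZero K]
    {𝒯 : Set (K ≃+* K)} {V : Set (HeightOneSpectrum (𝓞 F))}
    {R : GK F →* GL (Fin n) K} {𝒢 : Subgroup (GL (Fin n) K)} {c : GL (Fin n) K} {x : GK F}
    (hc : ∀ τ ∈ 𝒯, (c : Matrix (Fin n) (Fin n) K).charpoly.map (τ : K →+* K) =
      (c : Matrix (Fin n) (Fin n) K).charpoly)
    (hR : ∀ τ ∈ 𝒯, (R x : Matrix (Fin n) (Fin n) K).charpoly.map (τ : K →+* K) =
      (R x : Matrix (Fin n) (Fin n) K).charpoly)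
    {H : Subgroup (GK F)} (hT : Tower 𝒯 n V H) :
    (∀ k : ℕ, 0 < k → x ^ k ∈ H → ∃ γ ∈ 𝒢, R x ^ k = γ * c ^ k * γ⁻¹) →
      ∃ γ ∈ 𝒢, R x = γ * c * γ⁻¹ := by
  induction hT with
  | top =>
    intro h
    obtain ⟨γ, hγ, h1⟩ := h 1 one_pos (Subgroup.mem_top _)
    rw [pow_one, pow_one] at h1
    exact ⟨γ, hγ, h1⟩
  | step H H' p τ hτ hp _ hle hnorm hidx _ ih =>
    intro h
    refine ih fun k hk hx => ?_
    have hp0 : (p : K) ≠ 0 := Nat.cast_ne_zero.mpr hp.1.ne_zero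
    have hpw := pow_mem_of_relIndex hnorm hidx hx
    obtain ⟨γ, hγ, h1⟩ := h (k * p) (Nat.mul_pos hk hp.1.pos) (by rw [pow_mul]; exact hpw)
    refine ⟨γ, hγ, ?_⟩
    refine eq_of_pow_small hp hp0 (B := γ * c ^ k * γ⁻¹) (C := R x ^ k) ?_ ?_ ?_
    · intro y hy
      rw [Run7.h427.PL.charpoly_conj, Units.val_pow_eq_pow_val] at hy
      exact smallEig_pow (hc τ hτ) k y hy
    · rw [Units.val_pow_eq_pow_val]
      exact smallEig_pow (hR τ hτ) k
    · rw [← pow_mul, h1, conj_pow, pow_mul]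

end Run7.h427.CZ
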