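import Pool.Agent.Run7.h427.CY.Unr
import Pool.Agent.Run7.h427.CY.Step

/-!
# Elements of small orbits, and the uniqueness of extensions with eigenvalues of small orbits
-/

set_option autoImplicit false

namespace Run7.h427.CZ

open Module Polynomial Matrix
open Run7.h427.CY

variable {K : Type} [Field K]

/-- `x` is fixed by one of `τ, …, τ ^ n` -/
def Small (τ : K ≃+* K) (n : ℕ) (x : K) : Prop := ∃ a : ℕ, 1 ≤ a ∧ a ≤ n ∧ (τ ^ a) x = x

theorem small_of_mem {τ : K ≃+* K} {n : ℕ} {A : Multiset K} (hA : A.card ≤ n)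
    (hτ : ∀ x ∈ A, τ x ∈ A) {x : K} (hx : x ∈ A) : Small τ n x := exists_fix τ A hA hτ hx

theorem Small.mono {τ : K ≃+* K} {n m : ℕ} (h : n ≤ m) {x : K} (hx : Small τ n x) :
    Small τ m x := by
  obtain ⟨a, h1, h2, h3⟩ := hx
  exact ⟨a, h1, h2.trans h, h3⟩

/-- an element which is small for a power of `τ` -/
theorem Small.of_pow {τ : K ≃+* K} {n a d : ℕ} (ha : 1 ≤ a) (h : a * d ≤ n) {x : K}
    (hx : Small (τ ^ a) d x) : Small τ n x := by
  obtain ⟨b, h1, h2, h3⟩ := hx
  refine ⟨a * b, Nat.mul_pos ha h1, (Nat.mul_le_mul_left a h2).trans h, ?_⟩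
  rw [pow_mul]
  exact h3

/-- small elements with the same `p`-th power are equal -/
theorem Small.eq {τ : K ≃+* K} {n p : ℕ} (hp : Good τ n p) {x y : K} (hx : Small τ n x)
    (hy : Small τ n y) (h : x ^ p = y ^ p) : x = y := by
  by_cases hy0 : y = 0
  · rw [hy0, zero_pow hp.1.ne_zero] at h
    rw [hy0]
    exact eq_zero_of_pow_eq_zero h
  obtain ⟨a, ha1, han, ha⟩ := hx
  obtain ⟨b, hb1, hbn, hb⟩ := hy
  have h2 : (τ ^ a) y = y := hp.fix_of_pow hb1 hbn hb (by rw [← h, map_pow, ha])
  have h3 : x / y = 1 := by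
    refine hp.eq_one ?_ ha1 han ?_
    · rw [div_pow, h, div_self (pow_ne_zero p hy0)]
    · rw [map_div₀, ha, h2]
  exact (div_eq_one_iff_eq hy0).mp h3

/-- **Rigidity.** -/
theorem rigid_small {τ : K ≃+* K} {n p : ℕ} (hp : Good τ n p) {A B : Multiset K}
    (hA : ∀ x ∈ A, Small τ n x) (hB : ∀ x ∈ B, Small τ n x)
    (h : (A.map fun x => x ^ p) = B.map fun x => x ^ p) : A = B := by
  classical
  have hiA : Set.InjOn (fun x : K => x ^ p) {x | x ∈ A} := fun x hx y hy hxy =>
    (hA x hx).eq hp (hA y hy) hxy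
  have hiB : Set.InjOn (fun x : K => x ^ p) {x | x ∈ B} := fun x hx y hy hxy =>
    (hB x hx).eq hp (hB y hy) hxy
  have hmem : ∀ x, x ∈ A ↔ x ∈ B := by
    intro x
    constructor
    · intro hx
      have h1 : x ^ p ∈ B.map fun x => x ^ p := by
        rw [← h]
        exact Multiset.mem_map_of_mem _ hx
      obtain ⟨y, hy, hyx⟩ := Multiset.mem_map.mp h1
      rw [(hA x hx).eq hp (hB y hy) hyx.symm]
      exact hy
    · intro hx
      have h1 : x ^ p ∈ A.map fun x => x ^ p := by
        rw [h]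
        exact Multiset.mem_map_of_mem _ hx
      obtain ⟨y, hy, hyx⟩ := Multiset.mem_map.mp h1
      rw [(hB x hx).eq hp (hA y hy) hyx.symm]
      exact hy
  ext x
  by_cases hx : x ∈ A
  · rw [← Multiset.count_map_eq_count (fun x : K => x ^ p) A hiA x hx, h,
      Multiset.count_map_eq_count (fun x : K => x ^ p) B hiB x ((hmem x).mp hx)]
  · rw [Multiset.count_eq_zero_of_notMem hx,
      Multiset.count_eq_zero_of_notMem fun hx' => hx ((hmem x).mpr hx')]

/-- the eigenvalues of `A` are small -/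
def SmallEig (τ : K ≃+* K) (m : ℕ) {n : ℕ} (A : Matrix (Fin n) (Fin n) K) : Prop :=
  ∀ x ∈ A.charpoly.roots, Small τ m x

variable {n : ℕ}

theorem ne_zero_of_eigen {A : Matrix (Fin n) (Fin n) K} (hA : A.det ≠ 0) {w : Fin n → K}
    (hw : w ≠ 0) {a : K} (h : Matrix.toLin' A w = a • w) : a ≠ 0 := by
  rintro rfl
  rw [zero_smul, Matrix.toLin'_apply] at h
  exact hw (Matrix.eq_zero_of_mulVec_eq_zero hA h)

/-- if `A` and `B` commute, `B ^ p = 1` and `A`, `A B` have small eigenvalues, then `B = 1` -/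
theorem inert_small [IsAlgClosed K] {τ : K ≃+* K} {m p : ℕ} (hp : Good τ m p)
    (hp0 : (p : K) ≠ 0) {A B : Matrix (Fin n) (Fin n) K} (hAB : A * B = B * A) (hBp : B ^ p = 1)
    (hA0 : A.det ≠ 0) (h1 : SmallEig τ m A) (h2 : SmallEig τ m (A * B)) : B = 1 := by
  by_contra hB
  have hAB' : Matrix.toLin' A * Matrix.toLin' B = Matrix.toLin' B * Matrix.toLin' A := by
    have := congrArg Matrix.toLin' hAB
    rw [Matrix.toLin'_mul, Matrix.toLin'_mul] at this
    exact this
  have hBp' : Matrix.toLin' B ^ p = 1 := by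
    rw [← Matrix.toLin'_pow, hBp, Matrix.toLin'_one]
    rfl
  have hB' : Matrix.toLin' B ≠ 1 := by
    intro h
    apply hB
    apply Matrix.toLin'.injective
    rw [h, Matrix.toLin'_one]
    rfl
  obtain ⟨w, a, ζ, hw, hAw, hBw, hζp, hζ1⟩ := exists_common hAB' hp0 hBp' hB'
  have ha : Small τ m a := h1 a (mem_roots_of_eigen hw hAw)
  have hζa : Small τ m (ζ * a) := by
    apply h2
    apply mem_roots_of_eigen hw
    rw [Matrix.toLin'_mul, LinearMap.comp_apply, hBw, map_smul, hAw, smul_smul]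
  have ha0 : a ≠ 0 := ne_zero_of_eigen hA0 hw hAw
  have h3 := ha.eq hp hζa (by rw [mul_pow, hζp, one_mul])
  apply hζ1
  have h4 : (ζ - 1) * a = 0 := by rw [sub_mul, one_mul, ← h3, sub_self]
  exact sub_eq_zero.mp ((mul_eq_zero.mp h4).resolve_right ha0)

/-- a matrix which `B` multiplies by a nontrivial `p`-th root of unity vanishes -/
theorem eq_zero_of_eigen [IsAlgClosed K] {τ : K ≃+* K} {m p : ℕ} (hp : Good τ m p)
    {B Y : Matrix (Fin n) (Fin n) K} (hB0 : B.det ≠ 0) (hB : SmallEig τ m B) {η : K}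
    (hη : η ^ p = 1) (hη1 : η ≠ 1) (h : B * Y = η • (Y * B)) : Y = 0 := by
  classical
  let f : End K (Fin n → K) := Matrix.toLin' B
  let y : End K (Fin n → K) := Matrix.toLin' Y
  have hfy : ∀ u : Fin n → K, f (y u) = η • y (f u) := by
    intro u
    change Matrix.toLin' B (Matrix.toLin' Y u) = η • Matrix.toLin' Y (Matrix.toLin' B u)
    rw [← LinearMap.comp_apply, ← Matrix.toLin'_mul, h, map_smul, LinearMap.smul_apply,
      Matrix.toLin'_mul, LinearMap.comp_apply]
  have hgen : ∀ (c : K) (u : Fin n → K), u ≠ 0 → u ∈ f.maxGenEigenspace c →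
      c ∈ B.charpoly.roots := by
    intro c u hu hmem
    have h2 : f.HasEigenvalue c := by
      rw [Module.End.mem_maxGenEigenspace] at hmem
      obtain ⟨k, hk⟩ := hmem
      have h3 : f.HasGenEigenvalue c k := by
        rw [Module.End.hasGenEigenvalue_iff]
        intro h4
        apply hu
        rw [← Submodule.mem_bot K, ← h4, Module.End.mem_genEigenspace_nat]
        exact hk
      exact Module.End.hasEigenvalue_of_hasGenEigenvalue h3
    obtain ⟨v, hv⟩ := h2.exists_hasEigenvector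
    exact mem_roots_of_eigen hv.2 hv.apply_eq_smul
  have hf : ∀ (z : K) (w : Fin n → K), w ∈ f.maxGenEigenspace z → y w = 0 := by
    intro z w hw
    by_contra hne
    have hcomm : ∀ u : Fin n → K, (f - (η * z) • (1 : End K (Fin n → K))) (y u) =
        η • y ((f - z • (1 : End K (Fin n → K))) u) := by
      intro u
      rw [LinearMap.sub_apply, LinearMap.sub_apply, hfy, map_sub, smul_sub]
      congr 1
      rw [LinearMap.smul_apply, LinearMap.smul_apply, map_smul, smul_smul]
      rfl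
    have hpow : ∀ (j : ℕ) (u : Fin n → K), ((f - (η * z) • (1 : End K (Fin n → K))) ^ j) (y u) =
        η ^ j • y (((f - z • (1 : End K (Fin n → K))) ^ j) u) := by
      intro j
      induction j with
      | zero => intro u; rw [pow_zero, pow_zero, pow_zero, one_smul]; rfl
      | succ j ih =>
        intro u
        rw [pow_succ, Module.End.mul_apply, hcomm, map_smul, ih, smul_smul, ← pow_succ',
          pow_succ (f - z • (1 : End K (Fin n → K))), Module.End.mul_apply]
    have hw0 : w ≠ 0 := by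
      rintro rfl
      rw [map_zero] at hne
      exact hne rfl
    have hz := hgen z w hw0 hw
    rw [Module.End.mem_maxGenEigenspace] at hw
    obtain ⟨k, hk⟩ := hw
    have hηz := hgen (η * z) (y w) hne (by
      rw [Module.End.mem_maxGenEigenspace]
      exact ⟨k, by rw [hpow, hk, map_zero, smul_zero]⟩)
    have h3 := (hB _ hz).eq hp (hB _ hηz) (by rw [mul_pow, hη, one_mul])
    have hz0 : z ≠ 0 := by
      rintro rfl
      rw [mem_roots B.charpoly_monic.ne_zero, ← Matrix.charpoly_toLin',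
        ← Module.End.hasEigenvalue_iff_isRoot_charpoly] at hz
      obtain ⟨v, hv⟩ := hz.exists_hasEigenvector
      exact ne_zero_of_eigen hB0 hv.2 hv.apply_eq_smul rfl
    apply hη1
    have h4 : (η - 1) * z = 0 := by rw [sub_mul, one_mul, ← h3, sub_self]
    exact sub_eq_zero.mp ((mul_eq_zero.mp h4).resolve_right hz0)
  apply Matrix.toLin'.injective
  rw [map_zero]
  have htop := Module.End.iSup_maxGenEigenspace_eq_top f
  apply LinearMap.ext
  intro w
  have hw : w ∈ ⨆ μ, f.maxGenEigenspace μ := by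
    rw [htop]
    exact Submodule.mem_top
  rw [LinearMap.zero_apply]
  change y w = 0
  induction hw using Submodule.iSup_induction' with
  | mem z x hx => exact hf z x hx
  | zero => exact map_zero _
  | add x y _ _ hx hy => rw [map_add, hx, hy, add_zero]

/-- **Commutants.** Let `S` be a set of matrices, `B` invertible with small eigenvalues,
`B⁻¹ S B ⊆ S` and `B ^ p ∈ S`.  Then `B` commutes with everything that commutes with `S`. -/
theorem comm_of_small [IsAlgClosed K] {τ : K ≃+* K} {m p : ℕ} (hp : Good τ m p)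
    (hp0 : (p : K) ≠ 0) {S : Set (Matrix (Fin n) (Fin n) K)} {B : GL (Fin n) K}
    (hB : SmallEig τ m (B : Matrix (Fin n) (Fin n) K))
    (hS : ∀ s ∈ S, ((B⁻¹ : GL (Fin n) K) : Matrix (Fin n) (Fin n) K) * s * B ∈ S)
    (hBp : ((B ^ p : GL (Fin n) K) : Matrix (Fin n) (Fin n) K) ∈ S)
    {X : Matrix (Fin n) (Fin n) K} (hX : ∀ s ∈ S, s * X = X * s) :
    (B : Matrix (Fin n) (Fin n) K) * X = X * B := by
  classical
  let E : Submodule K (Matrix (Fin n) (Fin n) K) :=
    { carrier := {X | ∀ s ∈ S, s * X = X * s}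
      add_mem' := fun {a b} ha hb s hs => by rw [mul_add, add_mul, ha s hs, hb s hs]
      zero_mem' := fun s _ => by rw [mul_zero, zero_mul]
      smul_mem' := fun c x hx s hs => by rw [mul_smul_comm, smul_mul_assoc, hx s hs] }
  let α : End K (Matrix (Fin n) (Fin n) K) :=
    { toFun := fun X => (B : Matrix (Fin n) (Fin n) K) * X * ((B⁻¹ : GL (Fin n) K) :
        Matrix (Fin n) (Fin n) K)
      map_add' := fun x y => by rw [mul_add, add_mul]
      map_smul' := fun c x => by rw [mul_smul_comm, smul_mul_assoc]; rfl }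
  have hαE : ∀ X ∈ E, α X ∈ E := by
    intro X hX s hs
    have h1 := hX _ (hS s hs)
    change s * ((B : Matrix (Fin n) (Fin n) K) * X * ((B⁻¹ : GL (Fin n) K) :
      Matrix (Fin n) (Fin n) K)) = (B : Matrix (Fin n) (Fin n) K) * X * ((B⁻¹ : GL (Fin n) K) :
      Matrix (Fin n) (Fin n) K) * s
    have hBB : (B : Matrix (Fin n) (Fin n) K) * ((B⁻¹ : GL (Fin n) K) :
        Matrix (Fin n) (Fin n) K) = 1 := by rw [← Units.val_mul, mul_inv_cancel, Units.val_one]
    calc s * ((B : Matrix (Fin n) (Fin n) K) * X * ((B⁻¹ : GL (Fin n) K) :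
          Matrix (Fin n) (Fin n) K))
        = ((B : Matrix (Fin n) (Fin n) K) * ((B⁻¹ : GL (Fin n) K) :
          Matrix (Fin n) (Fin n) K)) * s * ((B : Matrix (Fin n) (Fin n) K) * X *
          ((B⁻¹ : GL (Fin n) K) : Matrix (Fin n) (Fin n) K)) := by rw [hBB, one_mul]
      _ = (B : Matrix (Fin n) (Fin n) K) * (((B⁻¹ : GL (Fin n) K) :
          Matrix (Fin n) (Fin n) K) * s * B * X) * ((B⁻¹ : GL (Fin n) K) :
          Matrix (Fin n) (Fin n) K) := by simp only [mul_assoc]
      _ = (B : Matrix (Fin n) (Fin n) K) * (X * (((B⁻¹ : GL (Fin n) K) :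
          Matrix (Fin n) (Fin n) K) * s * B)) * ((B⁻¹ : GL (Fin n) K) :
          Matrix (Fin n) (Fin n) K) := by rw [h1]
      _ = (B : Matrix (Fin n) (Fin n) K) * X * ((B⁻¹ : GL (Fin n) K) :
          Matrix (Fin n) (Fin n) K) * s * ((B : Matrix (Fin n) (Fin n) K) *
            ((B⁻¹ : GL (Fin n) K) : Matrix (Fin n) (Fin n) K)) := by simp only [mul_assoc]
      _ = _ := by rw [hBB, mul_one]
  have hαpow : ∀ (j : ℕ) (X : Matrix (Fin n) (Fin n) K), (α ^ j) X =
      ((B ^ j : GL (Fin n) K) : Matrix (Fin n) (Fin n) K) * X *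
        (((B ^ j)⁻¹ : GL (Fin n) K) : Matrix (Fin n) (Fin n) K) := by
    intro j
    induction j with
    | zero => intro X; rw [pow_zero, pow_zero, inv_one, Units.val_one, one_mul, mul_one]; rfl
    | succ j ih =>
      intro X
      rw [pow_succ', Module.End.mul_apply, ih]
      change (B : Matrix (Fin n) (Fin n) K) * _ * _ = _
      rw [pow_succ' B, _root_.mul_inv_rev, Units.val_mul, Units.val_mul]
      simp only [mul_assoc]
  let β : End K E := α.restrict hαE
  have hβp : β ^ p = 1 := by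
    apply LinearMap.ext
    intro X
    apply Subtype.ext
    have h1 : ((β ^ p) X : Matrix (Fin n) (Fin n) K) = (α ^ p) X := by
      have h2 : ∀ j : ℕ, ((β ^ j) X : Matrix (Fin n) (Fin n) K) = (α ^ j) X := by
        intro j
        induction j with
        | zero => rfl
        | succ j ih =>
          rw [pow_succ', pow_succ', Module.End.mul_apply, Module.End.mul_apply, ← ih]
          rfl
      exact h2 p
    rw [h1, hαpow, X.2 _ hBp, mul_assoc, ← Units.val_mul, mul_inv_cancel, Units.val_one, mul_one]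
    rfl
  have hβ : β = 1 := by
    by_contra hne
    obtain ⟨w, a, ζ, hw, -, hβw, hζp, hζ1⟩ := exists_common (A := (1 : End K E)) (B := β)
      (by rw [one_mul, mul_one]) hp0 hβp hne
    apply hw
    apply Subtype.ext
    refine eq_zero_of_eigen hp ((Matrix.isUnit_iff_isUnit_det _).mp B.isUnit).ne_zero hB hζp hζ1 ?_
    have h1 : (B : Matrix (Fin n) (Fin n) K) * (w : Matrix (Fin n) (Fin n) K) *
        ((B⁻¹ : GL (Fin n) K) : Matrix (Fin n) (Fin n) K) = ζ • (w : Matrix (Fin n) (Fin n) K) :=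
      congrArg Subtype.val hβw
    rw [← smul_mul_assoc, ← h1, mul_assoc, ← Units.val_mul, inv_mul_cancel, Units.val_one, mul_one]
  have h1 := congrArg Subtype.val (LinearMap.congr_fun hβ ⟨X, hX⟩)
  have h2 : (B : Matrix (Fin n) (Fin n) K) * X *
      ((B⁻¹ : GL (Fin n) K) : Matrix (Fin n) (Fin n) K) = X := h1
  calc (B : Matrix (Fin n) (Fin n) K) * X = (B : Matrix (Fin n) (Fin n) K) * X *
      (((B⁻¹ : GL (Fin n) K) : Matrix (Fin n) (Fin n) K) * (B : Matrix (Fin n) (Fin n) K)) := by
        rw [← Units.val_mul, inv_mul_cancel, Units.val_one, mul_one]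
    _ = X * B := by rw [← mul_assoc, h2]

/-- **Uniqueness.** Two invertible matrices with small eigenvalues and the same `p`-th power in `S`
which act on `S` by conjugation in the same way, are equal. -/
theorem eq_of_small [IsAlgClosed K] {τ : K ≃+* K} {m p : ℕ} (hp : Good τ m p)
    (hp0 : (p : K) ≠ 0) {S : Set (GL (Fin n) K)} {B B' : GL (Fin n) K}
    (hB : SmallEig τ m (B : Matrix (Fin n) (Fin n) K))
    (hB' : SmallEig τ m (B' : Matrix (Fin n) (Fin n) K))
    (hS : ∀ s ∈ S, B⁻¹ * s * B ∈ S) (hSS : ∀ s ∈ S, B * s * B⁻¹ = B' * s * B'⁻¹)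
    (hBp : B ^ p ∈ S) (hpp : B' ^ p = B ^ p) : B' = B := by
  -- `C = B⁻¹ B'` commutes with `S`
  have hC : ∀ s ∈ S, s * (B⁻¹ * B') = B⁻¹ * B' * s := by
    intro s hs
    have h1 := hSS s hs
    calc s * (B⁻¹ * B') = B⁻¹ * (B * s * B⁻¹) * B' := by group
      _ = B⁻¹ * (B' * s * B'⁻¹) * B' := by rw [h1]
      _ = B⁻¹ * B' * s := by group
  have h2 := comm_of_small hp hp0 (S := (fun g : GL (Fin n) K => (g : Matrix (Fin n) (Fin n) K)) '' S)
    (B := B) hB (by
      rintro _ ⟨s, hs, rfl⟩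
      exact ⟨_, hS s hs, rfl⟩) ⟨_, hBp, rfl⟩
    (X := ((B⁻¹ * B' : GL (Fin n) K) : Matrix (Fin n) (Fin n) K)) (by
      rintro _ ⟨s, hs, rfl⟩
      have := congrArg (fun g : GL (Fin n) K => (g : Matrix (Fin n) (Fin n) K)) (hC s hs)
      simp only [Units.val_mul] at this ⊢
      exact this)
  have h3 : Commute B (B⁻¹ * B') := by
    apply Units.ext
    rw [Units.val_mul, Units.val_mul]
    exact h2
  have h4 : (B⁻¹ * B') ^ p = 1 := by
    have h5 := h3.mul_pow p
    rw [mul_inv_cancel_left, hpp] at h5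
    exact (mul_eq_left.mp h5.symm)
  have h5 := inert_small hp hp0 (A := (B : Matrix (Fin n) (Fin n) K))
    (B := ((B⁻¹ * B' : GL (Fin n) K) : Matrix (Fin n) (Fin n) K)) h2 (by
      rw [← Units.val_pow_eq_pow_val, h4, Units.val_one])
    ((Matrix.isUnit_iff_isUnit_det _).mp B.isUnit).ne_zero hB (by
      rw [← Units.val_mul, mul_inv_cancel_left]
      exact hB')
  have h6 : B⁻¹ * B' = 1 := Units.ext h5
  exact (inv_mul_eq_one.mp h6).symm

end Run7.h427.CZ
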