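import Pool.Agent.Run7.h427.CZ.Arith

/-!
# One cyclic step, and towers, for semisimple representations
-/

set_option autoImplicit false

namespace Run7.h427.CZ

open Matrix Topology Filter NumberField IsDedekindDomain Polynomial
open Run7.h427.CY
open Run7.h427.DS (Semis)
open Pool.Agent.W401.Cheb Pool.Agent.W528.Ord
open Run7.h427.PL (exists_frob_dens vanish isFrob_conj)

variable {F : Type} [Field F] [NumberField F] {K : Type} [Field K] {n : ℕ}
  [IsAlgClosed K] [CharZero K] [TopologicalSpace K] [IsTopologicalRing K] [T2Space K]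

/-- **One cyclic step** for semisimple representations. -/
theorem one_ss (hn : 0 < n) {τ : K ≃+* K} (hτc : Continuous τ)
    {T : HeightOneSpectrum (𝓞 F) → K[X]} (hT1 : ∀ v, (T v).Monic)
    (hTn : ∀ v, (T v).natDegree = n) (hTτ : ∀ v, (T v).map (τ : K →+* K) = T v)
    {H H' : Subgroup (GK F)} (hH : IsOpen (H : Set (GK F))) (hle : H ≤ H')
    (hnorm : (H.subgroupOf H').Normal) {p : ℕ} (hp : Good τ n p) (hidx : H.relIndex H' = p)
    {ρ : H →* GL (Fin n) K} (hc : Continuous fun x => (ρ x : Matrix (Fin n) (Fin n) K))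
    (hss : Semis ρ) (hB : Tendsto (dens fun v => ¬ Right T H ρ v) atTop (𝓝 0)) :
    ∃ R : H' →* GL (Fin n) K, Continuous (fun x => (R x : Matrix (Fin n) (Fin n) K)) ∧
      (∀ (x : GK F) (hx : x ∈ H), R ⟨x, hle hx⟩ = ρ ⟨x, hx⟩) ∧ Semis R ∧
      (∀ v, Right T H ρ v → Right T H' R v) ∧
      (∀ v, Right T H ρ v → Unr H ρ v → Unr H' R v) := by
  classical
  have hp0 : (p : K) ≠ 0 := Nat.cast_ne_zero.mpr hp.1.ne_zero
  -- the subgroup of `H'`
  let N : Subgroup H' := H.subgroupOf H'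
  have hNn : N.Normal := hnorm
  have hNidx : N.index = p := hidx
  let e : N →* H := (Subgroup.subgroupOfEquivOfLe hle).toMonoidHom
  have hes : Function.Surjective e := (Subgroup.subgroupOfEquivOfLe hle).surjective
  let σ : N →* GL (Fin n) K := ρ.comp e
  have hσss : Semis σ := Run7.h427.PL.semis_comp hss e (by
    rw [MonoidHom.range_eq_top.mpr hes]
    infer_instance)
  have hpow : ∀ y : H', y ^ p ∈ N := fun y => pow_mem_of_relIndex hnorm hidx y.2
  -- a Frobenius element outside `H`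
  obtain ⟨v₀, hv₀, g₀, hg₀, hg₀H, hfr₀⟩ := exists_frob_sdiff hH hle hp.1 hidx hB
  let g : H' := ⟨g₀, hg₀⟩
  have hgN : g ∉ N := hg₀H
  have hgpN : g ^ p ∈ N := hpow g
  -- traces
  have key : ∀ v, Right T H ρ v → ∀ (x : GK F) (hx : x ∈ H), IsFrob v x →
      (ρ ⟨x, hx⟩ : Matrix (Fin n) (Fin n) K).charpoly = T v := by
    intro v hv x hx hfr
    apply charpoly_eq_of_roots (hT1 v)
    obtain ⟨Q, hQ, hfQ⟩ := isFrob_above hfr
    have h1 := hv Q hQ 1 one_pos x hx hfQ
    simp only [pow_one, Multiset.map_id'] at h1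
    exact h1
  have htr : ∀ (A : Matrix (Fin n) (Fin n) K), A.trace = -A.charpoly.coeff (n - 1) := by
    intro A
    have : Nonempty (Fin n) := ⟨⟨0, hn⟩⟩
    rw [Matrix.trace_eq_neg_charpoly_coeff, Fintype.card_fin]
  have ht : ∀ (x : H') (hx : x ∈ N), (σ ⟨g * x * g⁻¹, hNn.conj_mem x hx g⟩ :
      Matrix (Fin n) (Fin n) K).trace = (σ ⟨x, hx⟩ : Matrix (Fin n) (Fin n) K).trace := by
    have hconj : ∀ y : H, g₀ * y * g₀⁻¹ ∈ H := by
      rintro ⟨y, hy⟩
      exact hNn.conj_mem ⟨y, hle hy⟩ hy g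
    let f : H → H := fun y => ⟨g₀ * y * g₀⁻¹, hconj y⟩
    have hf : Continuous f := Continuous.subtype_mk
      ((continuous_const.mul continuous_subtype_val).mul continuous_const) _
    have h1 := vanish H hH (fun y => (ρ (f y) : Matrix (Fin n) (Fin n) K).trace -
      (ρ y : Matrix (Fin n) (Fin n) K).trace)
      ((hc.comp hf).matrix_trace.sub hc.matrix_trace) _ hB (by
        intro v hv x hx hfr
        rw [not_not] at hv
        rw [sub_eq_zero, htr, htr, key v hv x hx hfr]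
        have h2 := key v hv (g₀ * x * g₀⁻¹) (hconj ⟨x, hx⟩) (isFrob_conj v x g₀ hfr)
        change -(ρ ⟨g₀ * x * g₀⁻¹, hconj ⟨x, hx⟩⟩ : Matrix (Fin n) (Fin n) K).charpoly.coeff _ = _
        rw [h2])
    rintro ⟨x, hx'⟩ hx
    exact sub_eq_zero.mp (h1 ⟨x, hx⟩)
  have hτtr : ∀ x : N, τ (σ x : Matrix (Fin n) (Fin n) K).trace =
      (σ x : Matrix (Fin n) (Fin n) K).trace := by
    have h1 := vanish H hH (fun y => τ (ρ y : Matrix (Fin n) (Fin n) K).trace -
      (ρ y : Matrix (Fin n) (Fin n) K).trace)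
      ((hτc.comp hc.matrix_trace).sub hc.matrix_trace) _ hB (by
        intro v hv x hx hfr
        rw [not_not] at hv
        rw [sub_eq_zero, htr, key v hv x hx hfr, map_neg]
        have h2 := congrArg (fun P : K[X] => P.coeff (n - 1)) (hTτ v)
        simp only [Polynomial.coeff_map] at h2
        rw [RingHom.coe_coe] at h2
        rw [h2])
    rintro ⟨⟨x, hx'⟩, hx⟩
    exact sub_eq_zero.mp (h1 ⟨x, hx⟩)
  obtain ⟨R, hR, hRsm⟩ := exist_small hσss hp hNidx hgN ht hτtr hgpN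
  have hRH : ∀ (x : GK F) (hx : x ∈ H), R ⟨x, hle hx⟩ = ρ ⟨x, hx⟩ := fun x hx => hR ⟨x, hle hx⟩ hx
  have hsmT : ∀ v m, ∀ x ∈ (T v).roots.map fun a => a ^ m, Small τ n x := fun v m =>
    small_roots (hTn v).le (hTτ v) m
  have hright : ∀ v, Right T H ρ v → Right T H' R v := by
    intro v hv Q hQ m hm x hx hfr
    have hxp : x ^ p ∈ H := hpow ⟨x, hx⟩
    have h1 := hv Q hQ (m * p) (Nat.mul_pos hm hp.1.pos) (x ^ p) hxp (hfr.pow hQ p)
    have h2 : R ⟨x, hx⟩ ^ p = ρ ⟨x ^ p, hxp⟩ := by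
      rw [← map_pow, ← hRH _ hxp]
      rfl
    have h3 := roots_pow (R ⟨x, hx⟩ : Matrix (Fin n) (Fin n) K) p
    rw [← Units.val_pow_eq_pow_val, h2, h1] at h3
    refine rigid_small hp (hRsm _) (hsmT v m) ?_
    rw [← h3, Multiset.map_map]
    apply Multiset.map_congr rfl
    intro a _
    rw [Function.comp_apply, pow_mul]
  refine ⟨R, ?_, hRH, ?_, hright, ?_⟩
  · have hNo : IsOpen (N : Set H') := hH.preimage continuous_subtype_val
    refine continuous_of_open hNo (σ := σ) ?_ hR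
    have h1 : Continuous fun y : N => (⟨y.1.1, y.2⟩ : H) :=
      Continuous.subtype_mk (continuous_subtype_val.comp continuous_subtype_val) _
    exact hc.comp h1
  · refine Run7.h427.PL.semis_of_comp N.subtype ?_ ?_
    · rw [Subgroup.range_subtype]
      exact ⟨by rw [hNidx]; exact hp.1.ne_zero⟩
    · have h1 : R.comp N.subtype = σ := by
        ext1 x
        exact hR x.1 x.2
      rw [h1]
      exact hσss
  · intro v hv hu Q hQ i hi hfi
    obtain ⟨m, hm, s, hs, hfs⟩ := exists_frobPow hQ H hH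
    -- the commutator is in `H` and in the inertia group
    have hcomm : s * i * s⁻¹ * i⁻¹ ∈ H := by
      have h1 : i * s⁻¹ * i⁻¹ ∈ H := hNn.conj_mem (⟨s, hle hs⟩⁻¹ : H') (H.inv_mem hs) ⟨i, hi⟩
      have h2 := H.mul_mem hs h1
      have h3 : s * i * s⁻¹ * i⁻¹ = s * (i * s⁻¹ * i⁻¹) := by group
      rw [h3]
      exact h2
    have hfc : FrobPow v Q 0 (s * i * s⁻¹ * i⁻¹) := (hfs.conj hQ hfi).mul hQ hfi.inv
    have h1 := hu Q hQ _ hcomm hfc
    rw [← hRH _ hcomm] at h1
    let s' : H' := ⟨s, hle hs⟩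
    let i' : H' := ⟨i, hi⟩
    have h2 : R s' * R i' = R i' * R s' := by
      have h3 : (⟨s * i * s⁻¹ * i⁻¹, hle hcomm⟩ : H') = s' * i' * s'⁻¹ * i'⁻¹ := rfl
      rw [h3, map_mul, map_mul, map_mul, map_inv, map_inv, mul_inv_eq_one,
        mul_inv_eq_iff_eq_mul] at h1
      exact h1
    have hip : i ^ p ∈ H := hpow i'
    have h3 : R i' ^ p = 1 := by
      have h4 := hu Q hQ _ hip (by
        have := hfi.pow hQ p
        rwa [zero_mul] at this)
      rw [← hRH _ hip] at h4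
      rw [← map_pow]
      exact h4
    have h8 := inert_small hp hp0 (A := (R s' : Matrix (Fin n) (Fin n) K))
      (B := (R i' : Matrix (Fin n) (Fin n) K)) (by
        have := congrArg Units.val h2
        rwa [Units.val_mul, Units.val_mul] at this) (by
        have := congrArg Units.val h3
        rwa [Units.val_pow_eq_pow_val] at this)
      ((Matrix.isUnit_iff_isUnit_det _).mp (R s').isUnit).ne_zero (hRsm _) (by
        rw [← Units.val_mul, ← map_mul]
        exact hRsm _)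
    exact Units.ext h8

/-- **Descent of semisimple representations through a tower.** -/
theorem descent_ss (hn : 0 < n) {𝒯 : Set (K ≃+* K)} (h𝒯c : ∀ τ ∈ 𝒯, Continuous τ)
    {T : HeightOneSpectrum (𝓞 F) → K[X]} (hT1 : ∀ v, (T v).Monic)
    (hTn : ∀ v, (T v).natDegree = n) (hTτ : ∀ τ ∈ 𝒯, ∀ v, (T v).map (τ : K →+* K) = T v)
    {V : Set (HeightOneSpectrum (𝓞 F))}
    {H : Subgroup (GK F)} (hT : Tower 𝒯 n V H) : ∀ (_ : IsOpen (H : Set (GK F)))
    (ρ : H →* GL (Fin n) K) (_ : Continuous fun x => (ρ x : Matrix (Fin n) (Fin n) K))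
    (_ : Semis ρ) (_ : Tendsto (dens fun v => ¬ Right T H ρ v) atTop (𝓝 0)),
    ∃ R : GK F →* GL (Fin n) K, Continuous (fun x => (R x : Matrix (Fin n) (Fin n) K)) ∧
      (∀ (x : GK F) (hx : x ∈ H), R x = ρ ⟨x, hx⟩) ∧ Semis R ∧
      (∀ v, Right T H ρ v → Right T ⊤ (R.comp (⊤ : Subgroup (GK F)).subtype) v) ∧
      (∀ v, Right T H ρ v → Unr H ρ v → ∀ Q, Above v Q → ∀ σ : GK F, FrobPow v Q 0 σ →
        R σ = 1) := by
  induction hT with
  | top =>
    intro _ ρ hc hss _
    refine ⟨ρ.comp Subgroup.topEquiv.symm.toMonoidHom, ?_, fun x hx => rfl, ?_, ?_, ?_⟩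
    · exact hc.comp (Continuous.subtype_mk continuous_id _)
    · refine Run7.h427.PL.semis_comp hss _ ?_
      rw [MonoidHom.range_eq_top.mpr (Subgroup.topEquiv.symm.surjective)]
      infer_instance
    · intro v hv Q hQ m hm σ hσ hfr
      exact hv Q hQ m hm σ hσ hfr
    · intro v _ hu Q hQ σ hσ
      exact hu Q hQ σ (Subgroup.mem_top _) hσ
  | step H H' p τ hτ hp _ hle hnorm hidx hor ih =>
    intro hH ρ hc hss hB
    obtain ⟨R', hR'c, hR'H, hR'ss, hR'r, hR'u⟩ := one_ss hn (h𝒯c τ hτ) hT1 hTn (hTτ τ hτ) hH hle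
      hnorm hp hidx hc hss hB
    have hH' : IsOpen (H' : Set (GK F)) := Subgroup.isOpen_mono hle hH
    have hB' : Tendsto (dens fun v => ¬ Right T H' R' v) atTop (𝓝 0) :=
      squeeze_zero (fun N => dens_nonneg _ N)
        (fun N => dens_mono (fun v hv h => hv (hR'r v h)) N) hB
    obtain ⟨R, h1, h2, h3, h4, h5⟩ := ih hH' R' hR'c hR'ss hB'
    exact ⟨R, h1, fun x hx => by rw [h2 x (hle hx), hR'H], h3, fun v hv => h4 v (hR'r v hv),
      fun v hv hu => h5 v (hR'r v hv) (hR'u v hv hu)⟩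

omit [IsAlgClosed K] [CharZero K] [TopologicalSpace K] [IsTopologicalRing K] [T2Space K] in
theorem charpoly_of_right [IsAlgClosed K] {T : HeightOneSpectrum (𝓞 F) → K[X]}
    (hT1 : ∀ v, (T v).Monic) {R : GK F →* GL (Fin n) K} {v : HeightOneSpectrum (𝓞 F)}
    (h : Right T ⊤ (R.comp (⊤ : Subgroup (GK F)).subtype) v) {σ : GK F} (hσ : IsFrob v σ) :
    (R σ : Matrix (Fin n) (Fin n) K).charpoly = T v := by
  apply charpoly_eq_of_roots (hT1 v)
  obtain ⟨Q, hQ, hfQ⟩ := isFrob_above hσ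
  have h1 := h Q hQ 1 one_pos σ (Subgroup.mem_top _) hfQ
  simp only [pow_one, Multiset.map_id'] at h1
  exact h1

end Run7.h427.CZ
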