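import Pool.Agent.Run7.h427.CZ.Step

/-!
# Properties of the extension: decomposition groups, classes, invariants, forms
-/

set_option autoImplicit false

namespace Run7.h427.CZ

open Matrix Topology Filter NumberField IsDedekindDomain Polynomial
open Run7.h427.CY
open Run7.h427.DS (Semis)
open Pool.Agent.W401.Cheb Pool.Agent.W528.Ord
open Run7.h427.PL (exists_frob_dens vanish isFrob_conj exists_iso)

variable {F : Type} [Field F] [NumberField F] {K : Type} [Field K] {n : ℕ} [IsAlgClosed K]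

/-- matrices with small eigenvalues and the same `p`-th power are equal -/
theorem eq_of_pow_small {τ : K ≃+* K} {m p : ℕ} (hp : Good τ m p) (hp0 : (p : K) ≠ 0)
    {B C : GL (Fin n) K} (hB : SmallEig τ m (B : Matrix (Fin n) (Fin n) K))
    (hC : SmallEig τ m (C : Matrix (Fin n) (Fin n) K)) (h : C ^ p = B ^ p) : C = B := by
  refine eq_of_small hp hp0 (S := {s | s = B ^ p}) hB hC ?_ ?_ rfl h
  · rintro s rfl
    have h1 : Commute (B ^ p) B := Commute.pow_left (Commute.refl B) p
    change B⁻¹ * B ^ p * B = B ^ p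
    rw [mul_assoc, h1.eq, inv_mul_cancel_left]
  · rintro s rfl
    have h1 : Commute (B ^ p) B := Commute.pow_left (Commute.refl B) p
    have h2 : Commute (C ^ p) C := Commute.pow_left (Commute.refl C) p
    rw [← h1.eq, mul_inv_cancel_right, ← h, ← h2.eq, mul_inv_cancel_right]

/-- the eigenvalues of a power of a matrix whose characteristic polynomial is stable -/
theorem smallEig_pow {τ : K ≃+* K} {B : Matrix (Fin n) (Fin n) K}
    (h : B.charpoly.map (τ : K →+* K) = B.charpoly) (m : ℕ) : SmallEig τ n (B ^ m) := by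
  intro x hx
  rw [Run7.h427.CY.roots_pow] at hx
  refine small_roots (P := B.charpoly) ?_ h m x hx
  rw [Matrix.charpoly_natDegree_eq_dim, Fintype.card_fin]

theorem smallEig_of_stable {τ : K ≃+* K} {B : Matrix (Fin n) (Fin n) K}
    (h : B.charpoly.map (τ : K →+* K) = B.charpoly) : SmallEig τ n B := by
  have := smallEig_pow h 1
  rwa [pow_one] at this

/-- **Classes.** If the matrices of the elements of `H` which act as the `m`-th power of Frobenius at
`v` are conjugate to `c ^ m` in the group `𝒢`, the same holds for all such elements. -/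
theorem tower_class {𝒯 : Set (K ≃+* K)} {V : Set (HeightOneSpectrum (𝓞 F))} [CharZero K]
    {R : GK F →* GL (Fin n) K} {v : HeightOneSpectrum (𝓞 F)} {𝒢 : Subgroup (GL (Fin n) K)}
    {c : GL (Fin n) K}
    (hc : ∀ τ ∈ 𝒯, (c : Matrix (Fin n) (Fin n) K).charpoly.map (τ : K →+* K) =
      (c : Matrix (Fin n) (Fin n) K).charpoly)
    (hR : ∀ Q, Above v Q → ∀ m : ℕ, 0 < m → ∀ σ : GK F, FrobPow v Q m σ →
      ∀ τ ∈ 𝒯, SmallEig τ n (R σ : Matrix (Fin n) (Fin n) K))
    {H : Subgroup (GK F)} (hT : Tower 𝒯 n V H) :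
    (∀ Q, Above v Q → ∀ m : ℕ, 0 < m → ∀ σ ∈ H, FrobPow v Q m σ →
      ∃ γ ∈ 𝒢, R σ = γ * c ^ m * γ⁻¹) →
    ∀ Q, Above v Q → ∀ m : ℕ, 0 < m → ∀ σ : GK F, FrobPow v Q m σ →
      ∃ γ ∈ 𝒢, R σ = γ * c ^ m * γ⁻¹ := by
  induction hT with
  | top => exact fun h Q hQ m hm σ hσ => h Q hQ m hm σ (Subgroup.mem_top σ) hσ
  | step H H' p τ hτ hp _ hle hnorm hidx _ ih =>
    intro h
    refine ih fun Q hQ m hm σ hσ hfr => ?_
    have hp0 : (p : K) ≠ 0 := Nat.cast_ne_zero.mpr hp.1.ne_zero
    have hpw := pow_mem_of_relIndex hnorm hidx hσ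
    obtain ⟨γ, hγ, h1⟩ := h Q hQ (m * p) (Nat.mul_pos hm hp.1.pos) (σ ^ p) hpw (hfr.pow hQ p)
    refine ⟨γ, hγ, ?_⟩
    refine eq_of_pow_small hp hp0 (B := γ * c ^ m * γ⁻¹) (C := R σ) ?_ (hR Q hQ m hm σ hfr τ hτ) ?_
    · intro x hx
      rw [Run7.h427.PL.charpoly_conj, Units.val_pow_eq_pow_val] at hx
      exact smallEig_pow (hc τ hτ) m x hx
    · rw [← map_pow, h1, conj_pow, pow_mul]

/-- **Decomposition groups.** Two representations of a subgroup `D` with small eigenvalues which agree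
on `D ∩ H` agree. -/
theorem tower_local {𝒯 : Set (K ≃+* K)} {V : Set (HeightOneSpectrum (𝓞 F))} [CharZero K]
    {D : Subgroup (GK F)} {φ ψ : D →* GL (Fin n) K}
    (hφ : ∀ τ ∈ 𝒯, ∀ x, SmallEig τ n (φ x : Matrix (Fin n) (Fin n) K))
    (hψ : ∀ τ ∈ 𝒯, ∀ x, SmallEig τ n (ψ x : Matrix (Fin n) (Fin n) K))
    {H : Subgroup (GK F)} (hT : Tower 𝒯 n V H) :
    (∀ x : D, (x : GK F) ∈ H → φ x = ψ x) → ∀ x, φ x = ψ x := by
  induction hT with
  | top => exact fun h x => h x (Subgroup.mem_top _)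
  | step H H' p τ hτ hp _ hle hnorm hidx _ ih =>
    intro h
    refine ih fun g hg => ?_
    have hp0 : (p : K) ≠ 0 := Nat.cast_ne_zero.mpr hp.1.ne_zero
    have hpw : ((g ^ p : D) : GK F) ∈ H := pow_mem_of_relIndex hnorm hidx hg
    have hconj : ∀ x : D, (x : GK F) ∈ H → ((g * x * g⁻¹ : D) : GK F) ∈ H := fun x hx =>
      hnorm.conj_mem ⟨x, hle hx⟩ hx ⟨g, hg⟩
    have hconj' : ∀ x : D, (x : GK F) ∈ H → ((g⁻¹ * x * g : D) : GK F) ∈ H := fun x hx => by
      have h1 : (g : GK F)⁻¹ * x * (g : GK F)⁻¹⁻¹ ∈ H :=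
        hnorm.conj_mem ⟨x, hle hx⟩ hx (⟨g, hg⟩⁻¹ : H')
      rwa [inv_inv] at h1
    refine eq_of_small hp hp0 (S := {s | ∃ x : D, (x : GK F) ∈ H ∧ s = ψ x}) (hψ τ hτ g)
      (hφ τ hτ g) ?_ ?_ ⟨g ^ p, hpw, by rw [map_pow]⟩ ?_
    · rintro _ ⟨x, hx, rfl⟩
      exact ⟨g⁻¹ * x * g, hconj' x hx, by rw [map_mul, map_mul, map_inv]⟩
    · rintro _ ⟨x, hx, rfl⟩
      rw [← map_inv, ← map_mul, ← map_mul, ← h _ (hconj x hx), map_mul, map_mul, map_inv, h x hx]
    · rw [← map_pow, h _ hpw, map_pow]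

/-- **Invariants** in a tower, for another representation `W` -/
theorem tower_inv {𝒯 : Set (K ≃+* K)} {V : Set (HeightOneSpectrum (𝓞 F))} [CharZero K] {N : ℕ}
    {B : HeightOneSpectrum (𝓞 F) → Prop} (hB : Tendsto (dens B) atTop (𝓝 0))
    {W : GK F →* GL (Fin N) K}
    (h : ∀ v, ¬ B v → ∀ σ : GK F, IsFrob v σ → ∀ τ ∈ 𝒯,
      SmallEig τ N (W σ : Matrix (Fin N) (Fin N) K))
    {w : Fin N → K} {H : Subgroup (GK F)} (hT : Tower 𝒯 N V H) : IsOpen (H : Set (GK F)) →
    (∀ x ∈ H, (W x : Matrix (Fin N) (Fin N) K) *ᵥ w = w) →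
      ∀ x, (W x : Matrix (Fin N) (Fin N) K) *ᵥ w = w := by
  classical
  induction hT with
  | top => exact fun _ h x => h x (Subgroup.mem_top x)
  | step H H' p τ hτ hp _ hle hnorm hidx _ ih =>
    intro hH hw
    refine ih (Subgroup.isOpen_mono hle hH) ?_
    have hp0 : (p : K) ≠ 0 := Nat.cast_ne_zero.mpr hp.1.ne_zero
    obtain ⟨v, hv, g, hg, hgH, hfr⟩ := exists_frob_sdiff hH hle hp.1 hidx hB
    have hpw := pow_mem_of_relIndex hnorm hidx hg
    let E : Submodule K (Fin N → K) :=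
      { carrier := {w | ∀ x ∈ H, (W x : Matrix (Fin N) (Fin N) K) *ᵥ w = w}
        add_mem' := fun {a b} ha hb x hx => by rw [Matrix.mulVec_add, ha x hx, hb x hx]
        zero_mem' := fun x _ => by rw [Matrix.mulVec_zero]
        smul_mem' := fun c u hu x hx => by rw [Matrix.mulVec_smul, hu x hx] }
    let f : Module.End K (Fin N → K) := Matrix.toLin' (W g : Matrix (Fin N) (Fin N) K)
    have hf : ∀ u, f u = (W g : Matrix (Fin N) (Fin N) K) *ᵥ u := fun u => Matrix.toLin'_apply _ _
    have hfE : ∀ u ∈ E, f u ∈ E := by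
      intro u hu x hx
      have h1 : g⁻¹ * x * g ∈ H := by
        have h2 : g⁻¹ * x * g⁻¹⁻¹ ∈ H := hnorm.conj_mem ⟨x, hle hx⟩ hx (⟨g, hg⟩⁻¹ : H')
        rwa [inv_inv] at h2
      have h3 : x * g = g * (g⁻¹ * x * g) := by group
      rw [hf, Matrix.mulVec_mulVec, ← Units.val_mul, ← map_mul, h3, map_mul, Units.val_mul,
        ← Matrix.mulVec_mulVec, hu _ h1]
    let β : Module.End K E := f.restrict hfE
    have hβi : ∀ (i : ℕ) (u : E), ((β ^ i) u : Fin N → K) =
        (W (g ^ i) : Matrix (Fin N) (Fin N) K) *ᵥ (u : Fin N → K) := by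
      intro i
      induction i with
      | zero =>
        intro u
        rw [pow_zero, pow_zero, map_one, Units.val_one, Matrix.one_mulVec]
        rfl
      | succ i ih =>
        intro u
        rw [pow_succ, Module.End.mul_apply, ih, pow_succ, map_mul, Units.val_mul,
          ← Matrix.mulVec_mulVec]
        rfl
    have hβp : β ^ p = 1 := by
      apply LinearMap.ext
      intro u
      apply Subtype.ext
      rw [hβi]
      exact u.2 _ hpw
    have hβ : β = 1 := by
      by_contra hne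
      obtain ⟨u, a, ζ, hu, -, hβu, hζp, hζ1⟩ := exists_common (A := (1 : Module.End K E)) (B := β)
        (by rw [one_mul, mul_one]) hp0 hβp hne
      apply hζ1
      have h1 : ζ ∈ (W g : Matrix (Fin N) (Fin N) K).charpoly.roots :=
        mem_roots_of_eigen (w := (u : Fin N → K)) (fun h0 => hu (Subtype.ext h0))
          (congrArg Subtype.val hβu)
      have hN : 1 ≤ N := by
        by_contra hN
        have hN0 : N = 0 := by omega
        subst hN0
        exact hu (Subtype.ext (Subsingleton.elim _ _))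
      exact (h v hv g hfr τ hτ ζ h1).eq hp ⟨1, le_rfl, hN, by rw [map_one]⟩
        (by rw [hζp, one_pow])
    let M : Subgroup (GK F) :=
      { carrier := {x | (W x : Matrix (Fin N) (Fin N) K) *ᵥ w = w}
        one_mem' := by
          change (W 1 : Matrix (Fin N) (Fin N) K) *ᵥ w = w
          rw [map_one, Units.val_one, Matrix.one_mulVec]
        mul_mem' := by
          intro a b ha hb
          change (W (a * b) : Matrix (Fin N) (Fin N) K) *ᵥ w = w
          change (W a : Matrix (Fin N) (Fin N) K) *ᵥ w = w at ha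
          change (W b : Matrix (Fin N) (Fin N) K) *ᵥ w = w at hb
          rw [map_mul, Units.val_mul, ← Matrix.mulVec_mulVec, hb, ha]
        inv_mem' := by
          intro a ha
          change (W a : Matrix (Fin N) (Fin N) K) *ᵥ w = w at ha
          change (W a⁻¹ : Matrix (Fin N) (Fin N) K) *ᵥ w = w
          calc (W a⁻¹ : Matrix (Fin N) (Fin N) K) *ᵥ w
              = (W a⁻¹ : Matrix (Fin N) (Fin N) K) *ᵥ ((W a : Matrix (Fin N) (Fin N) K) *ᵥ w) := by
                rw [ha]
            _ = w := by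
                rw [Matrix.mulVec_mulVec, ← Units.val_mul, ← map_mul, inv_mul_cancel, map_one,
                  Units.val_one, Matrix.one_mulVec] }
    have hgM : g ∈ M := by
      have h1 := congrArg Subtype.val (LinearMap.congr_fun hβ ⟨w, hw⟩)
      exact h1
    have h1 := le_of_prime (M := M) hle hnorm hp.1 hidx (fun x hx => hw x hx) hg hgH hgM
    exact fun x hx => h1 hx

variable [CharZero K] [TopologicalSpace K] [IsTopologicalRing K] [T2Space K]

/-- all characteristic polynomials of the representation are stable -/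
theorem stable_all (hn : 0 < n) {τ : K ≃+* K} (hτc : Continuous τ)
    {T : HeightOneSpectrum (𝓞 F) → K[X]} (hTτ : ∀ v, (T v).map (τ : K →+* K) = T v)
    {B : HeightOneSpectrum (𝓞 F) → Prop} (hB : Tendsto (dens B) atTop (𝓝 0))
    {R : GK F →* GL (Fin n) K} (hc : Continuous fun x => (R x : Matrix (Fin n) (Fin n) K))
    (hss : Semis R)
    (h : ∀ v, ¬ B v → ∀ σ : GK F, IsFrob v σ → (R σ : Matrix (Fin n) (Fin n) K).charpoly = T v)
    (x : GK F) : (R x : Matrix (Fin n) (Fin n) K).charpoly.map (τ : K →+* K) =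
      (R x : Matrix (Fin n) (Fin n) K).charpoly := by
  have htr : ∀ (A : Matrix (Fin n) (Fin n) K), A.trace = -A.charpoly.coeff (n - 1) := by
    intro A
    have : Nonempty (Fin n) := ⟨⟨0, hn⟩⟩
    rw [Matrix.trace_eq_neg_charpoly_coeff, Fintype.card_fin]
  have h1 := vanish (⊤ : Subgroup (GK F)) isOpen_univ
    (fun y => τ (R y : Matrix (Fin n) (Fin n) K).trace - (R y : Matrix (Fin n) (Fin n) K).trace)
    ((hτc.comp (hc.comp continuous_subtype_val).matrix_trace).sub
      (hc.comp continuous_subtype_val).matrix_trace) _ hB (by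
        intro v hv y hy hfr
        rw [sub_eq_zero, htr, h v hv y hfr, map_neg]
        have h2 := congrArg (fun P : K[X] => P.coeff (n - 1)) (hTτ v)
        simp only [Polynomial.coeff_map] at h2
        rw [RingHom.coe_coe] at h2
        rw [h2])
  obtain ⟨A, hA⟩ := exists_iso hss (semis_mp hss τ) (fun y => by
    rw [MonoidHom.comp_apply, trace_mp]
    exact (sub_eq_zero.mp (h1 ⟨y, Subgroup.mem_top y⟩)).symm)
  have h2 := hA x
  rw [MonoidHom.comp_apply] at h2
  rw [← charpoly_mp, h2, Run7.h427.PL.charpoly_conj]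

end Run7.h427.CZ
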